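import Pool.Agent.Q155.HS.Tra

/-!
# Hilbert-Smith: groups which are well approximated by Lipschitz maps
-/

set_option autoImplicit false

open MeasureTheory Set Metric Filter Topology
open scoped ENNReal NNReal

namespace Pool.Agent.Q155.HS

open Pool.Agent.Y485.HS Pool.Agent.Y489.SP

/-- the number of separated points in a ball -/
lemma card_sep {n : ℕ} {r : ℝ} (hr : 0 < r) (hr1 : r ≤ 1) (A : Finset (E n))
    (hA : ∀ a ∈ A, a ∈ closedBall (0 : E n) 3) (hs : ∀ a ∈ A, ∀ b ∈ A, a ≠ b → r ≤ dist a b) :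
    (A.card : ℝ) * r ^ n ≤ 7 ^ n := by
  have hv := measure_ball_lt_top (μ := (volume : Measure (E n))) (x := 0) (r := 1)
  have hv0 : volume (ball (0 : E n) 1) ≠ 0 := (measure_ball_pos volume _ one_pos).ne'
  have hdisj : (A : Set (E n)).PairwiseDisjoint (fun a => ball a (r / 2)) := by
    intro a ha b hb hab
    refine ball_disjoint_ball ?_
    have := hs a ha b hb hab
    linarith
  have h1 : ∑ a ∈ A, volume (ball a (r / 2)) ≤ volume (ball (0 : E n) (7 / 2)) := by
    rw [← measure_biUnion_finset hdisj fun a _ => measurableSet_ball]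
    refine measure_mono (iUnion₂_subset fun a ha => ?_)
    refine ball_subset_ball' ?_
    have : dist a 0 ≤ 3 := hA a ha
    linarith
  have h2 : ∀ a : E n, volume (ball a (r / 2)) =
      ENNReal.ofReal ((r / 2) ^ n) * volume (ball (0 : E n) 1) := by
    intro a
    rw [Measure.addHaar_ball_of_pos volume a (by positivity), finrank_euclideanSpace_fin]
  have h3 : volume (ball (0 : E n) (7 / 2)) =
      ENNReal.ofReal ((7 / 2) ^ n) * volume (ball (0 : E n) 1) := by
    rw [Measure.addHaar_ball_of_pos volume _ (by norm_num), finrank_euclideanSpace_fin]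
  simp only [h2, h3, Finset.sum_const, nsmul_eq_mul] at h1
  rw [← mul_assoc] at h1
  have h4 := (ENNReal.mul_le_mul_iff_left hv0 hv.ne).1 h1
  have h5 : (A.card : ℝ≥0∞) = ENNReal.ofReal (A.card : ℝ) := by simp
  rw [h5, ← ENNReal.ofReal_mul (Nat.cast_nonneg _),
    ENNReal.ofReal_le_ofReal_iff (by positivity)] at h4
  have h6 : (r / 2) ^ n * 2 ^ n = r ^ n := by rw [← mul_pow]; congr 1; ring
  have h7 : ((7 : ℝ) / 2) ^ n * 2 ^ n = 7 ^ n := by rw [← mul_pow]; congr 1; ring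
  calc (A.card : ℝ) * r ^ n = (A.card * (r / 2) ^ n) * 2 ^ n := by rw [← h6]; ring
    _ ≤ (7 / 2) ^ n * 2 ^ n := by gcongr
    _ = 7 ^ n := h7

/-- every element of `V` is at distance at most `ε / L ^ (n - 1)` on `C` from an `L`-Lipschitz map,
for suitable `L` -/
def LApp (n : ℕ) {X : Type} [MetricSpace X] {G : Type} [Group G] [MulAction G X] (V : Set G)
    (C : Set X) : Prop :=
  ∀ ε : ℝ, 0 < ε → ∃ L : ℝ, 1 ≤ L ∧ ∀ g ∈ V, ∃ f : X → X,
    (∀ x ∈ C, ∀ y ∈ C, dist (f x) (f y) ≤ L * dist x y) ∧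
    ∀ x ∈ C, dist (g • x) (f x) * L ^ (n - 1) ≤ ε

theorem good_app {n : ℕ} (hn : 1 ≤ n) {X : Type} [MetricSpace X] {S : Set X}
    {G : Type} [Group G] [TopologicalSpace G] [MulAction G X] [ContinuousSMul G X]
    {V : Set G} (hV : ∀ C ⊆ S, IsCompact C → LApp n V C)
    (P : Type) [Group P] [TopologicalSpace P] (i : P →* G) (hiV : ∀ h, i h ∈ V) :
    Good n S (GdU n) P (fun (h : P) (x : X) => i h • x) := by
  intro U ψ L0 x0 hψ hUS hx0 hBU hact
  obtain ⟨K, hF⟩ := chf (x0 := x0) hψ hBU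
  have hK1 := hF.one
  have hK0 : (0 : ℝ) < K := by linarith
  have hCS : inv' U ψ x0 '' BB n ⊆ S := by
    rintro _ ⟨y, hy, rfl⟩
    exact hUS (hF.mem y hy)
  have h3B : closedBall (0 : E n) 3 ⊆ BB n := closedBall_subset_closedBall (by norm_num)
  intro ε hε
  set B : ℝ := (28 * (K : ℝ) ^ 2) ^ n with hB
  have hB0 : 0 < B := by positivity
  set ε' : ℝ := min 1 (ε / B) with hε'
  have hε'0 : 0 < ε' := lt_min one_pos (by positivity)
  obtain ⟨L, hL1, hL⟩ := hV _ hCS hF.comp ε' hε'0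
  have hL0 : 0 < L := by linarith
  set δ : ℝ := ε' / L ^ (n - 1) with hδ
  have hδ0 : 0 < δ := by positivity
  have hδ1 : δ ≤ 1 := by
    rw [hδ, div_le_one (by positivity)]
    exact (min_le_left _ _).trans (one_le_pow₀ hL1)
  have hr0 : 0 < δ / L := by positivity
  have hr1 : δ / L ≤ 1 := by
    rw [div_le_one hL0]
    linarith
  refine ⟨δ / L, hr0, fun h A hA hs => ?_⟩
  obtain ⟨f, hf1, hf2⟩ := hL (i h) (hiV h)
  have hf2' : ∀ x ∈ inv' U ψ x0 '' BB n, dist (i h • x) (f x) ≤ δ := by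
    intro x hx
    rw [hδ, le_div_iff₀ (by positivity)]
    exact hf2 x hx
  have hterm : ∀ a ∈ A, Metric.diam (chartAct U ψ x0 (fun (h : P) (x : X) => i h • x) h ''
      (closedBall a (δ / L) ∩ closedBall 0 3)) ^ n ≤ (4 * (K : ℝ) ^ 2 * δ) ^ n := by
    intro a _
    refine pow_le_pow_left₀ diam_nonneg ?_ n
    refine diam_le_of_forall_dist_le (by positivity) ?_
    rintro _ ⟨x, hx, rfl⟩ _ ⟨y, hy, rfl⟩
    have hxB := h3B hx.2
    have hyB := h3B hy.2
    have hxC := mem_image_of_mem (inv' U ψ x0) hxB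
    have hyC := mem_image_of_mem (inv' U ψ x0) hyB
    have hxy : dist x y ≤ 2 * (δ / L) := by
      have h1 : dist x a ≤ δ / L := hx.1
      have h2 : dist y a ≤ δ / L := hy.1
      have := dist_triangle_right x y a
      linarith
    have e1 := hF.lip'.dist_le_mul x hxB y hyB
    have e2 : dist (i h • inv' U ψ x0 x) (i h • inv' U ψ x0 y) ≤ 2 * δ + 2 * K * δ := by
      have h1 := hf2' _ hxC
      have h2 := hf2' _ hyC
      have h3 := hf1 _ hxC _ hyC
      have h4 := dist_triangle4 (i h • inv' U ψ x0 x) (f (inv' U ψ x0 x)) (f (inv' U ψ x0 y))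
        (i h • inv' U ψ x0 y)
      rw [dist_comm (f (inv' U ψ x0 y))] at h4
      have h5 : L * dist (inv' U ψ x0 x) (inv' U ψ x0 y) ≤ 2 * K * δ := by
        calc L * dist (inv' U ψ x0 x) (inv' U ψ x0 y) ≤ L * (K * (2 * (δ / L))) := by
              refine mul_le_mul_of_nonneg_left (e1.trans ?_) hL0.le
              exact mul_le_mul_of_nonneg_left hxy hK0.le
          _ = 2 * K * δ := by field_simp
      linarith
    calc dist (ψ (i h • inv' U ψ x0 x)) (ψ (i h • inv' U ψ x0 y))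
        ≤ K * dist (i h • inv' U ψ x0 x) (i h • inv' U ψ x0 y) :=
          hF.lip.dist_le_mul _ (hact h _ (hF.mem x hxB) (by rw [hF.eq x hxB]; exact hxB)).1 _
            (hact h _ (hF.mem y hyB) (by rw [hF.eq y hyB]; exact hyB)).1
      _ ≤ K * (2 * δ + 2 * K * δ) := by gcongr
      _ ≤ 4 * (K : ℝ) ^ 2 * δ := by nlinarith [mul_nonneg (mul_nonneg hK0.le (sub_nonneg.2 hK1)) hδ0.le]
  have hsum : ∑ a ∈ A, Metric.diam (chartAct U ψ x0 (fun (h : P) (x : X) => i h • x) h ''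
      (closedBall a (δ / L) ∩ closedBall 0 3)) ^ n ≤ A.card * (4 * (K : ℝ) ^ 2 * δ) ^ n := by
    refine (Finset.sum_le_sum hterm).trans ?_
    rw [Finset.sum_const, nsmul_eq_mul]
  have hcard := card_sep hr0 hr1 A hA hs
  obtain ⟨m, rfl⟩ : ∃ m, n = m + 1 := ⟨n - 1, by omega⟩
  simp only [Nat.add_sub_cancel] at hδ
  calc δ / L * ∑ a ∈ A, Metric.diam (chartAct U ψ x0 (fun (h : P) (x : X) => i h • x) h ''
      (closedBall a (δ / L) ∩ closedBall 0 3)) ^ (m + 1)
      ≤ δ / L * (A.card * (4 * (K : ℝ) ^ 2 * δ) ^ (m + 1)) := by gcongr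
    _ = (A.card * (δ / L) ^ (m + 1)) * ((4 * (K : ℝ) ^ 2) ^ (m + 1) * (δ * L ^ m)) := by
        have e1 : (4 * (K : ℝ) ^ 2 * δ) ^ (m + 1) = (4 * (K : ℝ) ^ 2) ^ (m + 1) * δ ^ (m + 1) :=
          mul_pow _ _ _
        have e2 : (δ / L) ^ (m + 1) * L ^ m = δ ^ (m + 1) / L := by
          rw [div_pow, pow_succ L m]
          field_simp
        calc δ / L * (A.card * (4 * (K : ℝ) ^ 2 * δ) ^ (m + 1))
            = A.card * (4 * (K : ℝ) ^ 2) ^ (m + 1) * δ * (δ ^ (m + 1) / L) := by rw [e1]; ring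
          _ = _ := by rw [← e2]; ring
    _ ≤ 7 ^ (m + 1) * ((4 * (K : ℝ) ^ 2) ^ (m + 1) * (δ * L ^ m)) := by gcongr
    _ = B * ε' := by
        have h1 : δ * L ^ m = ε' := by
          rw [hδ]
          exact div_mul_cancel₀ _ (by positivity)
        have h2 : (7 : ℝ) * (4 * (K : ℝ) ^ 2) = 28 * (K : ℝ) ^ 2 := by ring
        rw [h1, hB, ← mul_assoc, ← mul_pow, h2]
    _ ≤ B * (ε / B) := by gcongr; exact min_le_right _ _
    _ = ε := by field_simp

/-- Hilbert-Smith for groups approximated by Lipschitz maps -/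
theorem lie_app {n : ℕ} (hn : 1 ≤ n) {X : Type} [MetricSpace X] {S : Set X} (hSo : IsOpen S)
    (hSR : S ⊆ Reg n X) (hd : Dense S) (hc : IsPreconnected S)
    {G : Type} [Group G] [TopologicalSpace G] [IsTopologicalGroup G] [LocallyCompactSpace G]
    [MulAction G X] [ContinuousSMul G X] [FaithfulSMul G X] {V : Set G} (hV : V ∈ 𝓝 (1 : G))
    (h : ∀ C ⊆ S, IsCompact C → LApp n V C) : IsLie G :=
  lie_main hn (cls_U hn) hSo hSR hd hc V hV (fun P _ _ _ _ _ _ i _ hi => good_app hn h P i hi)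

end Pool.Agent.Q155.HS
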