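import Pool.Agent.Q155.HS.Core
import Pool.Agent.Y810.SP.NEWS

/-!
# Hilbert-Smith: classes of local actions
-/

set_option autoImplicit false

open MeasureTheory Set Metric Filter Topology
open scoped ENNReal NNReal

namespace Pool.Agent.Q155.HS

open Pool.Agent.Y485.HS Pool.Agent.Y489.SP Pool.Agent.Y401.SPN Pool.Agent.Y532.SP.BAI
open Pool.Agent.Y475.HS Pool.Agent.Y532.SP.LOCS

/-- admissible classes of local actions -/
structure Cls (n : ℕ)
    (Gd : ∀ (P : Type) [Group P] [TopologicalSpace P], (P → E n → E n) → Prop) : Prop where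
  loc : ∀ (P : Type) [Group P] [TopologicalSpace P] [IsTopologicalGroup P] [CompactSpace P]
    [T2Space P] [TotallyDisconnectedSpace P] (T : P → E n → E n), LocAct n P T → Gd P T →
    ∃ K : Subgroup P, IsOpen (K : Set P) ∧ ∀ p : ℕ, p.Prime → ∀ g ∈ K,
      Tendsto (fun j : ℕ => g ^ p ^ j) atTop (𝓝 1) → ∀ x ∈ ball (0 : E n) (1 / 2), T g x = x
  fin : ∀ (P : Type) [Group P] [TopologicalSpace P] [IsTopologicalGroup P] [CompactSpace P]
    [T2Space P] [TotallyDisconnectedSpace P] (T : P → E n → E n), LocAct n P T → Gd P T →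
    ∀ K : Subgroup P, IsOpen (K : Set P) → (∀ k ∈ K, ∀ y ∈ BB n, T k y = y) →
    ∀ p : ℕ, p.Prime → ∀ g : P, Tendsto (fun j : ℕ => g ^ p ^ j) atTop (𝓝 1) → T g 0 = 0

/-! ### the uniform class -/

/-- for every precision one scale which works for all elements -/
def GdU (n : ℕ) (P : Type) [Group P] [TopologicalSpace P] (T : P → E n → E n) : Prop :=
  ∀ ε : ℝ, 0 < ε → ∃ r : ℝ, 0 < r ∧ ∀ h, EnAt r ε (T h)

lemma scont {n : ℕ} {H : Type} [Group H] [TopologicalSpace H] [IsTopologicalGroup H]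
    {T : H → E n → E n} (hT : LocAct n H T) (h0 : H) (K : Subgroup H) :
    ContinuousOn (fun q : K × E n => T (h0 * ((q.1 : H))⁻¹) q.2) (univ ×ˢ BB n) := by
  have hc : Continuous (fun q : K × E n => (h0 * (((q.1 : K) : H))⁻¹, q.2)) := by fun_prop
  refine hT.cont.comp hc.continuousOn ?_
  rintro ⟨k, x⟩ ⟨-, hx⟩
  exact ⟨mem_univ _, hx⟩

lemma compK {H : Type} [Group H] [TopologicalSpace H] [IsTopologicalGroup H] [CompactSpace H]
    (g : H) : CompactSpace (Subgroup.zpowers g).topologicalClosure :=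
  isCompact_iff_compactSpace.1 (Subgroup.isClosed_topologicalClosure _).isCompact

lemma locU {p : ℕ} (hp : p.Prime) {n : ℕ} (hn : 1 ≤ n) {H : Type} [Group H]
    [TopologicalSpace H] [IsTopologicalGroup H] [CompactSpace H] [T2Space H]
    {T : H → E n → E n} (hT : LocAct n H T) (hG : GdU n H T) (g : H)
    (hgp : Tendsto (fun j : ℕ => g ^ p ^ j) atTop (𝓝 1)) :
    ∀ x ∈ ball (0 : E n) (1 / 2), T g x = x := by
  refine locs_core hp hn hT 1 g hgp ?_
  intro _ _ μ _
  have := compK g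
  have hc := scont hT 1 (Subgroup.zpowers g).topologicalClosure
  refine nul0 (ave_cont μ _ hc) (sm_unif μ _ hc fun ε hε => ?_)
  obtain ⟨r, hr, h⟩ := hG ε hε
  exact ⟨r, hr, fun ω => h _⟩

theorem cls_U {n : ℕ} (hn : 1 ≤ n) : Cls n (GdU n) where
  loc := by
    intro P _ _ _ _ _ _ T hT hG
    exact ⟨⊤, isOpen_univ, fun p hp g _ hg => locU hp hn hT hG g hg⟩
  fin := by
    intro P _ _ _ _ _ _ T hT hG K _ _ p hp g hg
    exact locU hp hn hT hG g hg 0 (by simp)

/-! ### the class given by a sequence of scales -/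

/-- the energies tend to zero along a sequence of scales -/
def GdS (n : ℕ) (P : Type) [Group P] [TopologicalSpace P] (T : P → E n → E n) : Prop :=
  ∃ r : ℕ → ℝ, (∀ j, 0 < r j) ∧ ∀ h, ∀ ε : ℝ, 0 < ε → ∀ᶠ j in atTop, EnAt (r j) ε (T h)

lemma EnAt.mono {n : ℕ} {r ε ε' : ℝ} {F : E n → E n} (h : EnAt r ε F) (he : ε ≤ ε') :
    EnAt r ε' F := fun A hA hs => (h A hA hs).trans he

lemma EnAt.congr {n : ℕ} {r ε : ℝ} {u v : E n → E n} (h : EnAt r ε u)
    (huv : ∀ x ∈ BB n, u x = v x) : EnAt r ε v := by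
  intro A hA hs
  have h1 := h A hA hs
  refine le_trans (le_of_eq ?_) h1
  congr 1
  refine Finset.sum_congr rfl fun a _ => ?_
  have h2 : v '' (closedBall a r ∩ closedBall 0 3) = u '' (closedBall a r ∩ closedBall 0 3) := by
    refine Set.image_congr fun x hx => (huv x ?_).symm
    exact closedBall_subset_closedBall (by norm_num) hx.2
  rw [h2]

/-- the number of separated points is bounded -/
lemma pack (n : ℕ) {r : ℝ} (hr : 0 < r) : ∃ M : ℕ, ∀ A : Finset (E n),
    (∀ a ∈ A, a ∈ closedBall (0 : E n) 3) → (∀ a ∈ A, ∀ b ∈ A, a ≠ b → r ≤ dist a b) →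
    A.card ≤ M := by
  classical
  have hc : IsCompact (closedBall (0 : E n) 3) := isCompact_closedBall 0 3
  obtain ⟨t, hts, htf, htc⟩ := hc.finite_cover_balls (half_pos hr)
  refine ⟨htf.toFinset.card, fun A hA1 hA2 => ?_⟩
  have h1 : ∀ a ∈ A, ∃ c ∈ t, dist a c < r / 2 := by
    intro a ha
    have h2 := htc (hA1 a ha)
    simpa only [mem_iUnion, mem_ball, exists_prop] using h2
  choose! c hc1 hc2 using h1
  refine Finset.card_le_card_of_injOn c (fun a ha => htf.mem_toFinset.2 (hc1 a ha)) ?_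
  intro a ha b hb hab
  by_contra hne
  have h3 := hA2 a ha b hb hne
  have h4 := hc2 a ha
  have h5 := hc2 b hb
  have hab' : c a = c b := hab
  rw [← hab'] at h5
  have h6 := dist_triangle_right a b (c a)
  linarith

/-- every map of the ball close to the identity has a finite energy at every scale -/
lemma fin_en {n : ℕ} {H : Type} [Group H] [TopologicalSpace H]
    {T : H → E n → E n} (hT : LocAct n H T) {r : ℝ} (hr : 0 < r) :
    ∃ N : ℕ, ∀ h, EnAt r N (T h) := by
  obtain ⟨M, hM⟩ := pack n hr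
  obtain ⟨N, hN⟩ := exists_nat_ge (r * (M * (8 : ℝ) ^ n))
  refine ⟨N, fun h A hA hs => le_trans ?_ hN⟩
  refine mul_le_mul_of_nonneg_left ?_ hr.le
  have hd : ∀ a ∈ A, Metric.diam (T h '' (closedBall a r ∩ closedBall 0 3)) ^ n ≤ (8 : ℝ) ^ n := by
    intro a _
    refine pow_le_pow_left₀ diam_nonneg ?_ n
    refine Metric.diam_le_of_forall_dist_le (by norm_num) ?_
    rintro _ ⟨x, hx, rfl⟩ _ ⟨y, hy, rfl⟩
    have hx3 : ‖x‖ ≤ 3 := by simpa using hx.2
    have hy3 : ‖y‖ ≤ 3 := by simpa using hy.2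
    have h1 := hT.disp h x (mem_BB.2 (by linarith))
    have h2 := hT.disp h y (mem_BB.2 (by linarith))
    have h3 : dist x y ≤ 6 := by
      rw [dist_eq_norm]
      exact (norm_sub_le _ _).trans (by linarith)
    have h4 := dist_triangle4 (T h x) x y (T h y)
    rw [dist_comm y] at h4
    linarith
  calc ∑ a ∈ A, Metric.diam (T h '' (closedBall a r ∩ closedBall 0 3)) ^ n
      ≤ ∑ _a ∈ A, (8 : ℝ) ^ n := Finset.sum_le_sum hd
    _ = A.card * (8 : ℝ) ^ n := by rw [Finset.sum_const, nsmul_eq_mul]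
    _ ≤ M * (8 : ℝ) ^ n := by
        have : (A.card : ℝ) ≤ M := by exact_mod_cast hM A hA hs
        gcongr

lemma bdd_en {n : ℕ} {H : Type} [Group H] [TopologicalSpace H]
    {T : H → E n → E n} (hT : LocAct n H T) {r : ℕ → ℝ} (hr : ∀ j, 0 < r j) (h : H)
    (h0 : ∀ ε : ℝ, 0 < ε → ∀ᶠ j in atTop, EnAt (r j) ε (T h)) :
    ∃ N : ℕ, ∀ j, EnAt (r j) N (T h) := by
  obtain ⟨J, hJ⟩ := eventually_atTop.1 (h0 1 one_pos)
  choose M hM using fun j => fin_en hT (hr j)
  refine ⟨(Finset.range J).sup M + 1, fun j => ?_⟩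
  rcases lt_or_ge j J with hj | hj
  · refine (hM j h).mono ?_
    have h1 : M j ≤ (Finset.range J).sup M := Finset.le_sup (Finset.mem_range.2 hj)
    have h2 : (M j : ℝ) ≤ (((Finset.range J).sup M : ℕ) : ℝ) := by exact_mod_cast h1
    push_cast
    linarith
  · refine (hJ j hj).mono ?_
    push_cast
    have : (0 : ℝ) ≤ (((Finset.range J).sup M : ℕ) : ℝ) := Nat.cast_nonneg _
    linarith

lemma locS {p : ℕ} (hp : p.Prime) {n : ℕ} (hn : 1 ≤ n) {H : Type} [Group H]
    [TopologicalSpace H] [IsTopologicalGroup H] [CompactSpace H] [T2Space H]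
    {T : H → E n → E n} (hT : LocAct n H T) {r : ℕ → ℝ} (hr : ∀ j, 0 < r j)
    (hG : ∀ h, ∀ ε : ℝ, 0 < ε → ∀ᶠ j in atTop, EnAt (r j) ε (T h)) (h0 : H) (N : ℕ) (g : H)
    (hN : ∀ k ∈ (Subgroup.zpowers g).topologicalClosure, ∀ j, EnAt (r j) N (T (h0 * k)))
    (hgp : Tendsto (fun j : ℕ => g ^ p ^ j) atTop (𝓝 1)) :
    ∀ x ∈ ball (0 : E n) (1 / 2), T g x = x := by
  refine locs_core hp hn hT h0 g hgp ?_
  intro _ _ μ _
  have := compK g
  have hc := scont hT h0 (Subgroup.zpowers g).topologicalClosure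
  exact nul0 (ave_cont μ _ hc) (sm_dom μ _ hc r hr N
    (fun ω j => hN _ (Subgroup.inv_mem _ ω.2) j) (fun ω => hG _))

theorem cls_S {n : ℕ} (hn : 1 ≤ n) : Cls n (GdS n) where
  loc := by
    rintro P _ _ _ _ _ _ T hT ⟨r, hr, hG⟩
    have hcl : ∀ N : ℕ, IsClosed {h : P | ∀ j, EnAt (r j) N (T h)} := by
      intro N
      have h1 : {h : P | ∀ j, EnAt (r j) N (T h)} =
          ⋂ (j : ℕ) (A : Finset (E n)) (_ : ∀ a ∈ A, a ∈ closedBall (0 : E n) 3)
            (_ : ∀ a ∈ A, ∀ b ∈ A, a ≠ b → r j ≤ dist a b),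
            {h : P | r j * ∑ a ∈ A, Metric.diam (T h '' Kar a (r j)) ^ n ≤ N} := by
        ext h
        simp only [mem_iInter, mem_ofPred_eq, EnAt]
      rw [h1]
      refine isClosed_iInter fun j => isClosed_iInter fun A => isClosed_iInter fun _ =>
        isClosed_iInter fun _ => ?_
      exact isClosed_le (continuous_const.mul
        (continuous_finsetSum _ fun a _ => (cont_diam T hT.cont a (r j)).pow n)) continuous_const
    have hU : ⋃ N : ℕ, {h : P | ∀ j, EnAt (r j) N (T h)} = univ := by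
      ext h
      simp only [mem_iUnion, mem_ofPred_eq, mem_univ, iff_true]
      exact bdd_en hT hr h (hG h)
    obtain ⟨m, h0, hh0⟩ := nonempty_interior_of_iUnion_of_closed hcl hU
    have hopen : IsOpen ((fun k : P => h0 * k) ⁻¹'
        (interior {h : P | ∀ j, EnAt (r j) m (T h)})) :=
      isOpen_interior.preimage (continuous_const.mul continuous_id)
    obtain ⟨K, hK⟩ := ProfiniteGrp.exist_openNormalSubgroup_sub_open_nhds_of_one hopen (by
      rw [mem_preimage, mul_one]; exact hh0)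
    refine ⟨K.toSubgroup, K.isOpen', fun p hp g hg hgp => ?_⟩
    have hKc : IsClosed (K.toSubgroup : Set P) := Subgroup.isClosed_of_isOpen _ K.isOpen'
    have hle : (Subgroup.zpowers g).topologicalClosure ≤ K.toSubgroup :=
      Subgroup.topologicalClosure_minimal _ ((Subgroup.zpowers_le).2 hg) hKc
    refine locS hp hn hT hr hG h0 m g (fun k hk => ?_) hgp
    have h1 : h0 * k ∈ {h : P | ∀ j, EnAt (r j) m (T h)} := interior_subset (hK (hle hk))
    exact h1
  fin := by
    rintro P _ _ _ _ _ _ T hT ⟨r, hr, hG⟩ K hK hKt p hp g hgp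
    have hcos : ∀ k : P, ∀ k' ∈ K, ∀ y ∈ BB n, T (k * k') y = T k y := by
      intro k k' hk' y hy
      rw [hT.mul k k' y hy (by rw [hKt k' hk' y hy]; exact hy), hKt k' hk' y hy]
    have hfinq : Finite (P ⧸ K) := Subgroup.quotient_finite_of_isOpen K hK
    have hfq : Fintype (P ⧸ K) := Fintype.ofFinite _
    choose mm hmm using fun h : P => bdd_en hT hr h (hG h)
    let m : ℕ := Finset.univ.sup (fun q : P ⧸ K => mm (Quotient.out q))
    have hm : ∀ k : P, ∀ j, EnAt (r j) m (T k) := by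
      intro k j
      obtain ⟨h, hh⟩ := QuotientGroup.mk_out_eq_mul K k
      have h1 : EnAt (r j) m (T (Quotient.out (k : P ⧸ K))) := by
        refine (hmm (Quotient.out (k : P ⧸ K)) j).mono ?_
        have := Finset.le_sup (f := fun q : P ⧸ K => mm (Quotient.out q))
          (Finset.mem_univ (k : P ⧸ K))
        exact_mod_cast this
      refine h1.congr fun x hx => ?_
      rw [hh]
      exact hcos k h h.2 x hx
    exact locS hp hn hT hr hG 1 m g (fun k _ j => by rw [one_mul]; exact hm k j) hgp 0 (by simp)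

end Pool.Agent.Q155.HS
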