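import Pool.Agent.Q155.HS.Crit
import Pool.Agent.Y489.SP.Final

/-!
# Hilbert-Smith: the local theorem for elements with a good average
-/

set_option autoImplicit false

open MeasureTheory Set Metric Filter Topology
open scoped ENNReal NNReal

namespace Pool.Agent.Q155.HS

open Pool.Agent.Y485.HS Pool.Agent.Y489.SP Pool.Agent.Y401.SPN Pool.Agent.Y532.SP.BAI
open Pool.Agent.Y475.HS Pool.Agent.Y532.SP.LOCS

theorem locs_core {p : ℕ} (hp : p.Prime) {n : ℕ} (hn : 1 ≤ n) {H : Type} [Group H]
    [TopologicalSpace H] [IsTopologicalGroup H] [CompactSpace H] [T2Space H]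
    {T : H → E n → E n} (hT : LocAct n H T) (h0 g : H)
    (hgp : Tendsto (fun j : ℕ => g ^ p ^ j) atTop (𝓝 1))
    (hav : ∀ [MeasurableSpace (Subgroup.zpowers g).topologicalClosure]
      [BorelSpace (Subgroup.zpowers g).topologicalClosure]
      (μ : Measure (Subgroup.zpowers g).topologicalClosure) [IsProbabilityMeasure μ],
      Nul (fun x => ∫ k : (Subgroup.zpowers g).topologicalClosure, T (h0 * ((k : H))⁻¹) x ∂μ)) :
    ∀ x ∈ ball (0 : E n) (1 / 2), T g x = x := by
  have hn1 : 1 ≤ n := hn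
  set K : Subgroup H := (Subgroup.zpowers g).topologicalClosure with hKdef
  have hKclosed : IsClosed (K : Set H) := Subgroup.isClosed_topologicalClosure _
  have hgmem : g ∈ K := Subgroup.le_topologicalClosure _ (Subgroup.mem_zpowers g)
  have hKcomp : CompactSpace K := isCompact_iff_compactSpace.1 hKclosed.isCompact
  let _ : MeasurableSpace K := borel K
  have _ : BorelSpace K := ⟨rfl⟩
  let μ : Measure K := Measure.haarMeasure ⊤
  have hμ1 : IsProbabilityMeasure μ := ⟨by
    have := Measure.haarMeasure_self (K₀ := (⊤ : TopologicalSpace.PositiveCompacts K))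
    simpa using this⟩
  -- the averaged maps
  let S : K → E n → E n := fun k x => T (h0 * ((k : H))⁻¹) x
  have hScont : ContinuousOn (fun q : K × E n => S q.1 q.2) (univ ×ˢ BB n) := by
    have hc : Continuous (fun q : K × E n => (h0 * (((q.1 : K) : H))⁻¹, q.2)) := by fun_prop
    refine hT.cont.comp hc.continuousOn ?_
    rintro ⟨k, x⟩ ⟨-, hx⟩
    exact ⟨mem_univ _, hx⟩
  set F : E n → E n := fun x => ∫ k, S k x ∂μ with hF
  have hFs : Nul F := hav μ
  have hFc : ContinuousOn F (BB n) := ave_cont μ S hScont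
  have hSc1 : ∀ x ∈ BB n, Continuous (fun k => S k x) := by
    intro x hx
    have hc : Continuous (fun k : K => (k, x)) := by fun_prop
    exact hScont.comp_continuous hc (fun k => ⟨mem_univ _, hx⟩)
  have hSint : ∀ x ∈ BB n, Integrable (fun k => S k x) μ := fun x hx =>
    (hSc1 x hx).integrable_of_hasCompactSupport (HasCompactSupport.of_compactSpace _)
  have hdisp : ∀ x ∈ BB n, dist (F x) x ≤ 1 / 4 := by
    intro x hx
    have h1 : F x - x = ∫ k, (S k x - x) ∂μ := by
      rw [integral_sub (hSint x hx) (integrable_const _)]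
      simp [hF]
    rw [dist_eq_norm, h1]
    have h2 := norm_integral_le_of_norm_le_const (μ := μ) (f := fun k => S k x - x) (C := 1 / 4)
      (Eventually.of_forall fun k => by
        have := hT.disp (h0 * ((k : H))⁻¹) x hx
        rwa [dist_eq_norm] at this)
    simpa using h2
  have hinv : ∀ k : K, ∀ x ∈ BB n, T (k : H) x ∈ BB n → F (T (k : H) x) = F x := by
    intro k x hx hkx
    have h1 : ∀ k' : K, S k' (T (k : H) x) = S (k⁻¹ * k') x := by
      intro k'
      show T (h0 * ((k' : H))⁻¹) (T (k : H) x) = T (h0 * (((k⁻¹ * k' : K) : H))⁻¹) x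
      rw [← hT.mul _ _ x hx hkx]
      congr 1
      simp [mul_assoc]
    show ∫ k', S k' (T (k : H) x) ∂μ = ∫ k', S k' x ∂μ
    simp_rw [h1]
    exact integral_mul_left_eq_self (fun k' => S k' x) k⁻¹
  have hCB : closedBall (0 : E n) 3 ⊆ BB n := closedBall_subset_closedBall (by norm_num)
  -- almost every point is the image of a fixed point
  have hfix : ∀ᵐ y ∂(volume.restrict (ball (0 : E n) 1)),
      ∃ x, ‖x‖ ≤ 3 ∧ (∀ k : K, T (k : H) x = x) ∧ T h0 x = y := by
    have hPy := ae_restrict_of_ae (s := ball (0 : E n) 1) (hFs)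
    filter_upwards [hPy, ae_restrict_mem measurableSet_ball] with y hy hy1
    by_contra hcon
    have hy1' : ‖y‖ < 1 := by simpa using hy1
    set Φ : Set (E n) := {x | x ∈ closedBall (0 : E n) 3 ∧ F x = y} with hΦ
    have hΦB : ∀ x ∈ Φ, x ∈ BB n := fun x hx => hCB hx.1
    have hΦn : ∀ x ∈ Φ, ‖x‖ < 5 / 4 := by
      intro x hx
      have := hdisp x (hΦB x hx)
      rw [hx.2, dist_eq_norm] at this
      calc ‖x‖ = ‖y - (y - x)‖ := by congr 1; abel
        _ ≤ ‖y‖ + ‖y - x‖ := norm_sub_le _ _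
        _ < _ := by linarith
    have hΦm : ∀ x ∈ Φ, T g x ∈ Φ := by
      intro x hx
      have h1 := hΦn x hx
      have h2 := norm_T_le hT g (hΦB x hx)
      refine ⟨by simp; linarith, ?_⟩
      rw [hinv ⟨g, hgmem⟩ x (hΦB x hx) (mem_BB.2 (by linarith))]
      exact hx.2
    have hΦc : IsCompact Φ := by
      have h1 : IsClosed Φ := by
        have h2 : Φ = closedBall (0 : E n) 3 ∩ F ⁻¹' {y} := by
          ext x
          simp [Φ]
        rw [h2]
        exact (hFc.mono hCB).preimage_isClosed_of_isClosed isClosed_closedBall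
          (isClosed_singleton (x := y))
      exact (isCompact_closedBall (0 : E n) 3).of_isClosed_subset h1 (fun x hx => hx.1)
    have hne : ∀ x ∈ Φ, T g x ≠ x := by
      intro x hx hfx
      apply hcon
      have hall := fix_closure hT (hΦB x hx) g hfx
      refine ⟨x, by have := hΦn x hx; linarith, fun k => hall k k.2, ?_⟩
      rw [← hx.2]
      have hxB := hΦB x hx
      have h1 : ∀ k : K, S k x = T h0 x := by
        intro k
        have h2 : T (((k⁻¹ : K)) : H) x = x := hall _ (k⁻¹).2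
        have h3 := hT.mul h0 (((k⁻¹ : K)) : H) x hxB (by rw [h2]; exact hxB)
        show T (h0 * ((k : H))⁻¹) x = T h0 x
        rw [h2] at h3
        simpa using h3
      show T h0 x = ∫ k, S k x ∂μ
      simp_rw [h1]
      simp
    obtain ⟨W, hW1, hW2, hW3, hW4⟩ := Pool.Agent.Y489.SP.Part.t_PART n p hp Φ (T g) hΦc
      (fun x hx x' hx' hxx => by
        obtain ⟨i, t, h1, h2⟩ := hy x hx.1 x' hx'.1 hx.2 hx'.2 hxx
        exact ⟨i, t, fun z hz => h1 z hz.1 hz.2, h2⟩)
      ((hT.cont_right g).mono hΦB) hΦm hne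
      (fun ε hε => by
        obtain ⟨J, hJ⟩ := unif hT (fun j => g ^ p ^ j) hgp ε hε
        refine ⟨J, fun x hx => ?_⟩
        rw [(iter_eq hT g Φ hΦB hΦm (p ^ J) x hx).1]
        exact hJ x (hΦB x hx))
    refine Pool.Agent.Y489.SP.degp n hn p hp.two_le F (T g) hFc (hT.cont_right g) hdisp (hT.disp g) ?_ y hy1 W
      hW1 hW2 hW3 hW4
    intro x hx
    have hxn : ‖x‖ ≤ 3 := by simpa using hx
    have h2 := norm_T_le hT g (hCB hx)
    exact hinv ⟨g, hgmem⟩ x (hCB hx) (mem_BB.2 (by linarith))
  -- the image of the fixed points is closed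
  let C : Set (E n) := {x | x ∈ closedBall (0 : E n) 3 ∧ ∀ k : K, T (k : H) x = x}
  have hCc : IsCompact C := by
    have h1 : IsClosed C := by
      have h2 : C = ⋂ k : K, {x | x ∈ closedBall (0 : E n) 3 ∧ T (k : H) x = x} := by
        ext x
        simp only [C, Set.mem_ofPred_eq, mem_iInter]
        constructor
        · rintro ⟨h, h'⟩ k; exact ⟨h, h' k⟩
        · intro h; exact ⟨(h 1).1, fun k => (h k).2⟩
      rw [h2]
      refine isClosed_iInter fun k => ?_
      have h3 : ContinuousOn (fun x => T (k : H) x - x) (closedBall (0 : E n) 3) :=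
        ((hT.cont_right (k : H)).mono hCB).sub continuousOn_id
      have h4 := h3.preimage_isClosed_of_isClosed isClosed_closedBall (isClosed_singleton (x := (0 : E n)))
      have h5 : {x | x ∈ closedBall (0 : E n) 3 ∧ T (k : H) x = x} =
          closedBall (0 : E n) 3 ∩ (fun x => T (k : H) x - x) ⁻¹' {0} := by
        ext x
        simp [sub_eq_zero]
      rw [h5]
      exact h4
    exact (isCompact_closedBall (0 : E n) 3).of_isClosed_subset h1 (fun x hx => hx.1)
  have himg : IsClosed (T h0 '' C) :=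
    (hCc.image_of_continuousOn ((hT.cont_right h0).mono fun x hx => hCB hx.1)).isClosed
  have hall : ball (0 : E n) 1 ⊆ T h0 '' C := by
    by_contra hne
    rw [not_subset] at hne
    obtain ⟨y, hy1, hy2⟩ := hne
    have hop : IsOpen (ball (0 : E n) 1 ∩ (T h0 '' C)ᶜ) := isOpen_ball.inter himg.isOpen_compl
    have hpos := hop.measure_pos volume ⟨y, hy1, hy2⟩
    have hz : volume (ball (0 : E n) 1 ∩ (T h0 '' C)ᶜ) = 0 := by
      rw [ae_restrict_iff' measurableSet_ball] at hfix
      refine measure_mono_null ?_ (ae_iff.1 hfix)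
      rintro z ⟨hz1, hz2⟩ hz3
      obtain ⟨x, hx3, hxk, hxy⟩ := hz3 hz1
      exact hz2 ⟨x, ⟨by simpa using hx3, hxk⟩, hxy⟩
    rw [hz] at hpos
    exact lt_irrefl _ hpos
  intro w hw
  have hwn : ‖w‖ < 1 / 2 := by simpa using hw
  have hwB : w ∈ BB n := mem_BB.2 (by linarith)
  have hTw := norm_T_le hT h0 hwB
  obtain ⟨x, ⟨hx3, hxk⟩, hxw⟩ := hall (show T h0 w ∈ ball (0 : E n) 1 by simp; linarith)
  have hTwB : T h0 w ∈ BB n := mem_BB.2 (by linarith)
  have hxB : x ∈ BB n := hCB hx3
  have e1 := hT.inv h0 hwB hTwB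
  have e2 := hT.inv h0 hxB (by rw [hxw]; exact hTwB)
  rw [hxw, e1] at e2
  rw [e2]
  exact hxk ⟨g, hgmem⟩



end Pool.Agent.Q155.HS
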