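import Pool.Agent.Y401.SPN.Fib
import Pool.Agent.Y532.SP.AVE
import Pool.Agent.Y532.SP.LOCS

/-!
# Hilbert-Smith: a criterion with one good scale for every precision

`Sm F`: for every `ε > 0` there is a scale `r` at which the discrete energy
`r * ∑ diam (F (B (a, r))) ^ n` is at most `ε`. Then almost every fibre of `F` is separated by
hyperplanes, and an average with this property cannot be invariant under a nontrivial element of
`p`-power type.
-/

set_option autoImplicit false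

open MeasureTheory Set Metric Filter Topology
open scoped ENNReal NNReal

namespace Pool.Agent.Q155.HS

open Pool.Agent.Y485.HS Pool.Agent.Y489.SP Pool.Agent.Y401.SPN Pool.Agent.Y532.SP.BAI
open Pool.Agent.Y475.HS

/-- the discrete energy of `F` at scale `r` is at most `ε` -/
def EnAt {n : ℕ} (r ε : ℝ) (F : E n → E n) : Prop :=
  ∀ A : Finset (E n), (∀ a ∈ A, a ∈ closedBall (0 : E n) 3) →
    (∀ a ∈ A, ∀ b ∈ A, a ≠ b → r ≤ dist a b) →
    r * ∑ a ∈ A, Metric.diam (F '' (closedBall a r ∩ closedBall 0 3)) ^ n ≤ ε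

/-- small discrete energies at some scales -/
def Sm {n : ℕ} (F : E n → E n) : Prop :=
  ∀ ε : ℝ, 0 < ε → ∃ r : ℝ, 0 < r ∧ EnAt r ε F

lemma slice0 {n : ℕ} {F : E n → E n} (hF : ContinuousOn F (BB n))
    (hE : Sm F) (i : Fin n) :
    ∀ᵐ t : ℝ, volume (F '' {x | x ∈ closedBall (0 : E n) 3 ∧ x i = t}) = 0 := by
  classical
  choose s hs0 hsE using fun j : ℕ => hE ((1 / 2 : ℝ) ^ j) (by positivity)
  choose A hA1 hA2 hA3 using fun j : ℕ => net n (r := s j) (hs0 j)
  set D : ℕ → E n → ℝ := fun j a =>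
    Metric.diam (F '' (closedBall a (s j) ∩ closedBall 0 3)) ^ n with hD
  have hD0 : ∀ j a, 0 ≤ D j a := fun j a => pow_nonneg diam_nonneg _
  set f : ℕ → ℝ → ℝ≥0∞ := fun j t => ∑ a ∈ A j,
    (Icc (a i - s j) (a i + s j)).indicator
      (fun _ => ENNReal.ofReal (D j a)) t with hf
  have hfm : ∀ j, Measurable (f j) := by
    intro j
    refine Finset.measurable_fun_sum _ fun a _ => ?_
    exact measurable_const.indicator measurableSet_Icc
  have hint : ∀ j, ∫⁻ t, f j t ≤ ENNReal.ofReal (2 * (1 / 2 : ℝ) ^ j) := by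
    intro j
    have hr0 : 0 < s j := hs0 j
    have h1 : ∫⁻ t, f j t = ∑ a ∈ A j, ENNReal.ofReal (D j a) * ENNReal.ofReal (2 * s j) := by
      simp only [hf]
      rw [lintegral_finsetSum _ fun a _ => measurable_const.indicator measurableSet_Icc]
      refine Finset.sum_congr rfl fun a _ => ?_
      rw [lintegral_indicator measurableSet_Icc, lintegral_const,
        Measure.restrict_apply MeasurableSet.univ, univ_inter, Real.volume_Icc]
      congr 2
      ring
    have h2 : ∑ a ∈ A j, ENNReal.ofReal (D j a) * ENNReal.ofReal (2 * s j)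
        = ENNReal.ofReal ((∑ a ∈ A j, D j a) * (2 * s j)) := by
      rw [ENNReal.ofReal_mul (Finset.sum_nonneg fun a _ => hD0 j a),
        ENNReal.ofReal_sum_of_nonneg fun a _ => hD0 j a, Finset.sum_mul]
    rw [h1, h2]
    apply ENNReal.ofReal_le_ofReal
    have h3 := hsE j (A j) (hA1 j) (hA2 j)
    calc (∑ a ∈ A j, D j a) * (2 * s j) = 2 * (s j * ∑ a ∈ A j, D j a) := by ring
      _ ≤ 2 * (1 / 2 : ℝ) ^ j := by gcongr
  have hsum : ∫⁻ t, ∑' j, f j t ≠ ∞ := by
    rw [lintegral_tsum fun j => (hfm j).aemeasurable]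
    refine ne_top_of_le_ne_top ?_ (ENNReal.tsum_le_tsum hint)
    have hs : Summable fun j : ℕ => 2 * (1 / 2 : ℝ) ^ j :=
      (summable_geometric_of_lt_one (by norm_num) (by norm_num)).mul_left _
    exact hs.tsum_ofReal_ne_top
  have hae := ae_lt_top (Measurable.tsum hfm) hsum
  filter_upwards [hae] with t ht
  set κ := volume (ball (0 : E n) 1) with hκ
  have hκt : κ ≠ ∞ := measure_ball_lt_top.ne
  have hz : Tendsto (fun j => f j t) atTop (𝓝 0) :=
    ENNReal.tendsto_atTop_zero_of_tsum_ne_top ht.ne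
  have hz2 : Tendsto (fun j => f j t * κ) atTop (𝓝 0) := by
    have := ENNReal.Tendsto.mul_const hz (b := κ) (Or.inr hκt)
    simpa using this
  refine le_antisymm (ge_of_tendsto' hz2 fun j => ?_) (zero_le)
  have hsub : F '' {x | x ∈ closedBall (0 : E n) 3 ∧ x i = t} ⊆
      ⋃ a ∈ (A j).filter (fun a => t ∈ Icc (a i - s j) (a i + s j)),
        F '' (closedBall a (s j) ∩ closedBall 0 3) := by
    rintro y ⟨x, ⟨hx, hxt⟩, rfl⟩
    obtain ⟨a, haA, hxa⟩ := hA3 j x hx
    have h1 := coord x a i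
    rw [hxt, abs_le] at h1
    refine mem_biUnion (x := a) ?_ ⟨x, ⟨mem_closedBall.2 hxa, hx⟩, rfl⟩
    rw [Finset.mem_coe, Finset.mem_filter]
    exact ⟨haA, by linarith [h1.1], by linarith [h1.2]⟩
  refine (measure_mono hsub).trans ((measure_biUnion_finset_le _ _).trans ?_)
  have hb : ∀ a : E n, Bornology.IsBounded (F '' (closedBall a (s j) ∩ closedBall 0 3)) := by
    intro a
    have hcomp : IsCompact (F '' closedBall (0 : E n) 3) :=
      (isCompact_closedBall 0 3).image_of_continuousOn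
        (hF.mono (closedBall_subset_closedBall (by norm_num)))
    exact hcomp.isBounded.subset (image_mono inter_subset_right)
  calc ∑ a ∈ (A j).filter (fun a => t ∈ Icc (a i - s j) (a i + s j)),
        volume (F '' (closedBall a (s j) ∩ closedBall 0 3))
      ≤ ∑ a ∈ (A j).filter (fun a => t ∈ Icc (a i - s j) (a i + s j)),
          ENNReal.ofReal (D j a) * κ :=
        Finset.sum_le_sum fun a _ => vol_le _ (hb a)
    _ = f j t * κ := by
        rw [← Finset.sum_mul, Finset.sum_filter]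
        simp only [hf, Set.indicator_apply]

/-- almost every fibre is separated by hyperplanes -/
def Nul {n : ℕ} (F : E n → E n) : Prop :=
  ∀ᵐ y : E n, ∀ x ∈ closedBall (0 : E n) 3, ∀ x' ∈ closedBall (0 : E n) 3, F x = y → F x' = y →
    x ≠ x' → ∃ (i : Fin n) (t : ℝ), (∀ z ∈ closedBall (0 : E n) 3, F z = y → z i ≠ t) ∧
      ((x i < t ∧ t < x' i) ∨ (x' i < t ∧ t < x i))

theorem nul0 {n : ℕ} {F : E n → E n} (hF : ContinuousOn F (BB n)) (hE : Sm F) : Nul F := by
  classical
  have h1 : ∀ i : Fin n, ∃ T : Set ℝ, T.Countable ∧ Dense T ∧ ∀ t ∈ T,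
      volume (F '' {x | x ∈ closedBall (0 : E n) 3 ∧ x i = t}) = 0 := by
    intro i
    have hd := Measure.dense_of_ae (slice0 hF hE i)
    obtain ⟨T, hT1, hT2, hT3⟩ := hd.exists_countable_dense_subset
    exact ⟨T, hT2, hT3, fun t ht => hT1 ht⟩
  choose T hT1 hT2 hT3 using h1
  have h2 : ∀ᵐ y : E n, ∀ i : Fin n, ∀ t ∈ T i,
      y ∉ F '' {x | x ∈ closedBall (0 : E n) 3 ∧ x i = t} := by
    rw [ae_all_iff]
    intro i
    rw [ae_ball_iff (hT1 i)]
    intro t ht
    exact measure_eq_zero_iff_ae_notMem.1 (hT3 i t ht)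
  filter_upwards [h2] with y hy x hx x' hx' hFx hFx' hne
  obtain ⟨i, hi⟩ : ∃ i : Fin n, x i ≠ x' i := by
    by_contra hall
    push Not at hall
    exact hne (PiLp.ext hall)
  rcases lt_or_gt_of_ne hi with h3 | h3
  · obtain ⟨t, htT, ht1, ht2⟩ := (hT2 i).exists_between h3
    exact ⟨i, t, fun z hz hFz hzt => hy i t htT ⟨z, ⟨hz, hzt⟩, hFz⟩, Or.inl ⟨ht1, ht2⟩⟩
  · obtain ⟨t, htT, ht1, ht2⟩ := (hT2 i).exists_between h3
    exact ⟨i, t, fun z hz hFz hzt => hy i t htT ⟨z, ⟨hz, hzt⟩, hFz⟩, Or.inr ⟨ht1, ht2⟩⟩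

/-- the diameters of the images of a small ball depend continuously on the parameter -/
lemma cont_diam {n : ℕ} {Ω : Type} [TopologicalSpace Ω] (T : Ω → E n → E n)
    (hT : ContinuousOn (fun q : Ω × E n => T q.1 q.2) (univ ×ˢ BB n)) (a : E n) (r : ℝ) :
    Continuous (fun ω => Metric.diam (T ω '' Kar a r)) := by
  have h1 : (fun ω => Metric.diam (T ω '' Kar a r)) =
      fun ω => Metric.diam (ext (res T hT ω) '' Kar a r) := by
    funext ω
    congr 1
    refine image_congr fun x hx => ?_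
    rw [ext_of_mem _ (kar_sub a r hx), res_apply]
  rw [h1]
  exact (diam_lip a r).continuous.comp (res T hT).continuous

lemma bdd_T {n : ℕ} {Ω : Type} [TopologicalSpace Ω] (T : Ω → E n → E n)
    (hT : ContinuousOn (fun q : Ω × E n => T q.1 q.2) (univ ×ˢ BB n)) (ω : Ω) (a : E n) (r : ℝ) :
    Bornology.IsBounded (T ω '' Kar a r) := by
  have h1 : T ω '' Kar a r = ext (res T hT ω) '' Kar a r := by
    refine image_congr fun x hx => ?_
    rw [ext_of_mem _ (kar_sub a r hx), res_apply]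
  rw [h1]
  exact bdd_ext _ _ _

/-- the energy of an average is at most the average of the energies -/
lemma ave_le {n : ℕ} {Ω : Type} [TopologicalSpace Ω] [CompactSpace Ω]
    [MeasurableSpace Ω] [BorelSpace Ω] (μ : Measure Ω) [IsProbabilityMeasure μ]
    (T : Ω → E n → E n) (hT : ContinuousOn (fun q : Ω × E n => T q.1 q.2) (univ ×ˢ BB n))
    (A : Finset (E n)) (r : ℝ) :
    ∑ a ∈ A, Metric.diam ((fun x => ∫ ω, T ω x ∂μ) '' Kar a r) ^ n ≤
      ∫ ω, ∑ a ∈ A, Metric.diam (T ω '' Kar a r) ^ n ∂μ := by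
  have hint : ∀ a : E n, ∀ k : ℕ, Integrable (fun ω => Metric.diam (T ω '' Kar a r) ^ k) μ :=
    fun a k => ((cont_diam T hT a r).pow k).integrable_of_hasCompactSupport
      (HasCompactSupport.of_compactSpace _)
  have hTint : ∀ x ∈ BB n, Integrable (fun ω => T ω x) μ := fun x hx => by
    have hc : Continuous (fun ω : Ω => (ω, x)) := by fun_prop
    have : Continuous (fun ω => T ω x) := hT.comp_continuous hc (fun ω => ⟨mem_univ _, hx⟩)
    exact this.integrable_of_hasCompactSupport (HasCompactSupport.of_compactSpace _)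
  rw [integral_finsetSum _ fun a _ => hint a n]
  refine Finset.sum_le_sum fun a _ => ?_
  have h1 : Metric.diam ((fun x => ∫ ω, T ω x ∂μ) '' Kar a r) ≤
      ∫ ω, Metric.diam (T ω '' Kar a r) ∂μ := by
    have hi := hint a 1
    simp only [pow_one] at hi
    refine Metric.diam_le_of_forall_dist_le (integral_nonneg fun ω => diam_nonneg) ?_
    rintro _ ⟨x, hx, rfl⟩ _ ⟨y, hy, rfl⟩
    have hxB := kar_sub a r hx
    have hyB := kar_sub a r hy
    show dist (∫ ω, T ω x ∂μ) (∫ ω, T ω y ∂μ) ≤ _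
    rw [dist_eq_norm, ← integral_sub (hTint x hxB) (hTint y hyB)]
    refine (norm_integral_le_integral_norm _).trans ?_
    refine integral_mono ((hTint x hxB).sub (hTint y hyB)).norm hi fun ω => ?_
    show ‖T ω x - T ω y‖ ≤ _
    rw [← dist_eq_norm]
    exact dist_le_diam_of_mem (bdd_T T hT ω a r) (mem_image_of_mem _ hx) (mem_image_of_mem _ hy)
  refine (pow_le_pow_left₀ diam_nonneg h1 n).trans ?_
  have h2 := (convexOn_pow (𝕜 := ℝ) n).map_integral_le (μ := μ)
    (f := fun ω => Metric.diam (T ω '' Kar a r)) (by fun_prop) isClosed_Ici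
    (Eventually.of_forall fun ω => show _ ∈ Ici (0 : ℝ) from diam_nonneg) (by simpa using hint a 1)
    (hint a n)
  exact h2

/-- averages are continuous -/
lemma ave_cont {n : ℕ} {Ω : Type} [TopologicalSpace Ω] [CompactSpace Ω]
    [MeasurableSpace Ω] [BorelSpace Ω] (μ : Measure Ω) [IsProbabilityMeasure μ]
    (T : Ω → E n → E n) (hT : ContinuousOn (fun q : Ω × E n => T q.1 q.2) (univ ×ˢ BB n)) :
    ContinuousOn (fun x => ∫ ω, T ω x ∂μ) (BB n) := by
  let Φ : C(Ω, C(BB n, E n)) := res T hT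
  have hint : Integrable (fun ω => Φ ω) μ :=
    Φ.continuous.integrable_of_hasCompactSupport (HasCompactSupport.of_compactSpace _)
  have heval : ∀ x : BB n, ∫ ω, T ω x.1 ∂μ = (∫ ω, Φ ω ∂μ : C(BB n, E n)) x := by
    intro x
    have := (ContinuousMap.evalCLM ℝ x : C(BB n, E n) →L[ℝ] E n).integral_comp_comm hint
    exact this
  rw [continuousOn_iff_continuous_domRestrict]
  have : (BB n).domRestrict (fun x => ∫ ω, T ω x ∂μ) = (∫ ω, Φ ω ∂μ : C(BB n, E n)) := by
    ext1 x
    exact heval x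
  rw [this]
  exact (∫ ω, Φ ω ∂μ : C(BB n, E n)).continuous

/-- uniformly small energies of the members give small energies of the average -/
lemma sm_unif {n : ℕ} {Ω : Type} [TopologicalSpace Ω] [CompactSpace Ω]
    [MeasurableSpace Ω] [BorelSpace Ω] (μ : Measure Ω) [IsProbabilityMeasure μ]
    (T : Ω → E n → E n) (hT : ContinuousOn (fun q : Ω × E n => T q.1 q.2) (univ ×ˢ BB n))
    (hu : ∀ ε : ℝ, 0 < ε → ∃ r : ℝ, 0 < r ∧ ∀ ω, EnAt r ε (T ω)) :
    Sm (fun x => ∫ ω, T ω x ∂μ) := by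
  intro ε hε
  obtain ⟨r, hr, h⟩ := hu ε hε
  refine ⟨r, hr, fun A hA hs => ?_⟩
  have h1 := ave_le μ T hT A r
  have hi : Integrable (fun ω => ∑ a ∈ A, Metric.diam (T ω '' Kar a r) ^ n) μ :=
    (continuous_finsetSum _ fun a _ => (cont_diam T hT a r).pow n).integrable_of_hasCompactSupport
      (HasCompactSupport.of_compactSpace _)
  calc r * ∑ a ∈ A, Metric.diam ((fun x => ∫ ω, T ω x ∂μ) '' (closedBall a r ∩ closedBall 0 3)) ^ n
      ≤ r * ∫ ω, ∑ a ∈ A, Metric.diam (T ω '' Kar a r) ^ n ∂μ := by gcongr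
    _ = ∫ ω, r * ∑ a ∈ A, Metric.diam (T ω '' Kar a r) ^ n ∂μ := by
        rw [integral_const_mul]
    _ ≤ ∫ _ω, ε ∂μ := integral_mono (hi.const_mul r) (integrable_const _) fun ω => h ω A hA hs
    _ = ε := by simp

/-- bounded energies along a sequence of scales which tend to zero for every member give small
energies of the average -/
lemma sm_dom {n : ℕ} {Ω : Type} [TopologicalSpace Ω] [CompactSpace Ω]
    [MeasurableSpace Ω] [BorelSpace Ω] (μ : Measure Ω) [IsProbabilityMeasure μ]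
    (T : Ω → E n → E n) (hT : ContinuousOn (fun q : Ω × E n => T q.1 q.2) (univ ×ˢ BB n))
    (r : ℕ → ℝ) (hr : ∀ j, 0 < r j) (N : ℝ) (hN : ∀ ω j, EnAt (r j) N (T ω))
    (h0 : ∀ ω, ∀ ε : ℝ, 0 < ε → ∀ᶠ j in atTop, EnAt (r j) ε (T ω)) :
    Sm (fun x => ∫ ω, T ω x ∂μ) := by
  intro ε hε
  by_contra hcon
  push Not at hcon
  have hc : ∀ j : ℕ, ∃ A : Finset (E n), (∀ a ∈ A, a ∈ closedBall (0 : E n) 3) ∧
    (∀ a ∈ A, ∀ b ∈ A, a ≠ b → r j ≤ dist a b) ∧
    ε < r j * ∑ a ∈ A, Metric.diam ((fun x => ∫ ω, T ω x ∂μ) '' Kar a (r j)) ^ n := by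
    intro j
    have h1 := hcon (r j) (hr j)
    unfold EnAt at h1
    push Not at h1
    exact h1
  choose A hA hs hb using hc
  have hcont : ∀ j, Continuous (fun ω => r j * ∑ a ∈ A j, Metric.diam (T ω '' Kar a (r j)) ^ n) :=
    fun j => continuous_const.mul
      (continuous_finsetSum _ fun a _ => (cont_diam T hT a (r j)).pow n)
  have hpos : ∀ j ω, 0 ≤ r j * ∑ a ∈ A j, Metric.diam (T ω '' Kar a (r j)) ^ n := fun j ω =>
    mul_nonneg (hr j).le (Finset.sum_nonneg fun a _ => pow_nonneg diam_nonneg _)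
  have hlim : Tendsto (fun j => ∫ ω, r j * ∑ a ∈ A j, Metric.diam (T ω '' Kar a (r j)) ^ n ∂μ) atTop
      (𝓝 (∫ _ω, (0 : ℝ) ∂μ)) := by
    refine tendsto_integral_of_dominated_convergence (fun _ => N)
      (fun j => (hcont j).aestronglyMeasurable) (integrable_const _)
      (fun j => Eventually.of_forall fun ω => ?_) (Eventually.of_forall fun ω => ?_)
    · rw [Real.norm_of_nonneg (hpos j ω)]
      exact hN ω j (A j) (hA j) (hs j)
    · rw [Metric.tendsto_atTop']
      intro δ hδ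
      obtain ⟨J, hJ⟩ := eventually_atTop.1 (h0 ω (δ / 2) (by positivity))
      refine ⟨J, fun j hj => ?_⟩
      rw [dist_zero_right, Real.norm_of_nonneg (hpos j ω)]
      have := hJ j hj.le (A j) (hA j) (hs j)
      linarith
  rw [integral_zero] at hlim
  have hev := hlim.eventually (gt_mem_nhds hε)
  obtain ⟨j, hj⟩ := hev.exists
  have h1 := ave_le μ T hT (A j) (r j)
  have h2 := hb j
  have h3 : r j * ∑ a ∈ A j, Metric.diam ((fun x => ∫ ω, T ω x ∂μ) '' Kar a (r j)) ^ n ≤
      r j * ∫ ω, ∑ a ∈ A j, Metric.diam (T ω '' Kar a (r j)) ^ n ∂μ :=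
    mul_le_mul_of_nonneg_left h1 (hr j).le
  rw [integral_const_mul] at hj
  linarith

end Pool.Agent.Q155.HS
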