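import Pool.Agent.Q155.HS.Cls

/-!
# Hilbert-Smith: from a class of local actions to Lie groups

The regularity is only required on an open set `S` of regular points which is dense and connected.
Adaptation of `Pool/Agent/Y489/SP/Main.lean`, `Pool/Agent/Y810/SP/NEWS.lean`.
-/

set_option autoImplicit false

open MeasureTheory Set Metric Filter Topology
open scoped ENNReal NNReal

namespace Pool.Agent.Q155.HS

open Pool.Agent.Y485.HS Pool.Agent.Y489.SP
open Pool.Agent.W660.GY (NSS GY3)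

/-- the action of `P` through `a`, read in the chart -/
noncomputable def chartAct {X : Type} [MetricSpace X] {n : ℕ} (U : Set X) (ψ : X → E n) (x0 : X)
    {P : Type} (a : P → X → X) (h : P) (y : E n) : E n := ψ (a h (inv' U ψ x0 y))

/-- the action `a` of `P` is of class `Gd` in all charts with domain in `S` which it moves by
little -/
def Good (n : ℕ) {X : Type} [MetricSpace X] (S : Set X)
    (Gd : ∀ (P : Type) [Group P] [TopologicalSpace P], (P → E n → E n) → Prop)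
    (P : Type) [Group P] [TopologicalSpace P] (a : P → X → X) : Prop :=
  ∀ (U : Set X) (ψ : X → E n) (L : ℝ) (x0 : X), BiLip n U ψ L → U ⊆ S → x0 ∈ U →
    closedBall 0 4 ⊆ ψ '' U →
    (∀ h : P, ∀ x ∈ U, ψ x ∈ closedBall 0 4 → a h x ∈ U ∧ dist (ψ (a h x)) (ψ x) ≤ 1 / 4) →
    Gd P (chartAct U ψ x0 a)

/-- the action in the chart -/
theorem chart_loc {X : Type} [MetricSpace X] {n : ℕ} {H : Type} [Group H] [TopologicalSpace H]
    [MulAction H X] [ContinuousSMul H X] {U : Set X} {ψ : X → E n} {L : ℝ} {x0 : X}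
    (hψ : BiLip n U ψ L) (hBU : closedBall 0 4 ⊆ ψ '' U)
    (hact : ∀ h : H, ∀ x ∈ U, ψ x ∈ closedBall 0 4 →
      h • x ∈ U ∧ dist (ψ (h • x)) (ψ x) ≤ 1 / 4) :
    LocAct n H (chartAct U ψ x0 (fun (h : H) x => h • x)) ∧
      ∀ h : H, ∀ x ∈ U, ψ x ∈ closedBall 0 4 →
        chartAct U ψ x0 (fun (h : H) x => h • x) h (ψ x) = ψ (h • x) := by
  have hθU : ∀ y ∈ BB n, inv' U ψ x0 y ∈ U := fun y hy => inv'_mem (hBU hy)
  have hψθ : ∀ y ∈ BB n, ψ (inv' U ψ x0 y) = y := fun y hy => inv'_eq (hBU hy)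
  have hθψ : ∀ x ∈ U, inv' U ψ x0 (ψ x) = x := fun x hx => hψ.inv'_left hx
  have hθc : ContinuousOn (inv' U ψ x0) (BB n) := (hψ.inv'_cont x0).mono hBU
  have hact' : ∀ h : H, ∀ y ∈ BB n,
      h • inv' U ψ x0 y ∈ U ∧ dist (ψ (h • inv' U ψ x0 y)) y ≤ 1 / 4 := by
    intro h y hy
    have := hact h _ (hθU y hy) (by rw [hψθ y hy]; exact hy)
    rwa [hψθ y hy] at this
  refine ⟨⟨?_, ?_, ?_, ?_⟩, ?_⟩
  · have h1 : ContinuousOn (fun q : H × E n => q.1 • inv' U ψ x0 q.2) (univ ×ˢ BB n) := by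
      refine ContinuousOn.smul continuousOn_fst ?_
      exact hθc.comp continuousOn_snd fun q hq => hq.2
    exact hψ.cont.comp h1 fun q hq => (hact' q.1 q.2 hq.2).1
  · intro x hx
    show ψ ((1 : H) • inv' U ψ x0 x) = x
    rw [one_smul]
    exact hψθ x hx
  · intro h k x hx hk
    show ψ ((h * k) • inv' U ψ x0 x) = ψ (h • inv' U ψ x0 (ψ (k • inv' U ψ x0 x)))
    rw [hθψ _ (hact' k x hx).1, mul_smul]
  · intro h x hx
    exact (hact' h x hx).2
  · intro h x hx _
    show ψ (h • inv' U ψ x0 (ψ x)) = _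
    rw [hθψ x hx]

/-- a chart around a point of an open set -/
theorem chart_in {X : Type} [MetricSpace X] {n : ℕ} {S : Set X} (hS : IsOpen S)
    (hSR : S ⊆ Reg n X) {x0 : X} (hx0 : x0 ∈ S) :
    ∃ (U : Set X) (ψ : X → E n) (L : ℝ), BiLip n U ψ L ∧ x0 ∈ U ∧ U ⊆ S := by
  obtain ⟨U, ψ, L, hxU, hU⟩ := hSR hx0
  refine ⟨U ∩ S, ψ, L, ⟨hU.1.inter hS, ?_, fun a ha b hb => hU.2.2 a ha.1 b hb.1⟩, ⟨hxU, hx0⟩,
    inter_subset_right⟩
  have h1 : ψ '' (U ∩ S) = ψ '' U ∩ inv' U ψ x0 ⁻¹' S := by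
    ext y
    constructor
    · rintro ⟨x, ⟨hx, hxS⟩, rfl⟩
      exact ⟨mem_image_of_mem ψ hx, by rw [mem_preimage, hU.inv'_left hx]; exact hxS⟩
    · rintro ⟨⟨x, hx, rfl⟩, hy⟩
      rw [mem_preimage, hU.inv'_left hx] at hy
      exact ⟨x, ⟨hx, hy⟩, rfl⟩
  rw [h1]
  exact (hU.inv'_cont x0).isOpen_inter_preimage hU.2.1 hS

/-- the metric space structure of an open set: regular points stay regular -/
theorem start_in {X : Type} [MetricSpace X] {n : ℕ} {S : Set X} (hS : IsOpen S)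
    (hSR : S ⊆ Reg n X) {x0 : X} (hx0 : x0 ∈ S) (H : Type) [Group H] [TopologicalSpace H]
    [IsTopologicalGroup H] [CompactSpace H] [T2Space H] [TotallyDisconnectedSpace H]
    [MulAction H X] [ContinuousSMul H X] :
    ∃ (U : Set X) (ψ : X → E n) (L : ℝ) (H0 : Subgroup H), BiLip n U ψ L ∧ x0 ∈ U ∧ U ⊆ S ∧
      ψ x0 = 0 ∧ closedBall 0 4 ⊆ ψ '' U ∧ IsOpen (H0 : Set H) ∧
      ∀ h ∈ H0, ∀ x ∈ U, ψ x ∈ closedBall 0 4 → h • x ∈ U ∧ dist (ψ (h • x)) (ψ x) ≤ 1 / 4 := by
  obtain ⟨U0, ψ0, L0, hB0, hx0U0, hU0S⟩ := chart_in hS hSR hx0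
  -- rescale the chart, keeping its domain inside `U0`
  obtain ⟨hU0, hψU0, hL0⟩ := hB0
  obtain ⟨r, hr, hball⟩ := Metric.isOpen_iff.1 hψU0 (ψ0 x0) ⟨x0, hx0U0, rfl⟩
  set c : ℝ := 5 / r with hc
  have hc0 : 0 < c := by positivity
  have hd : ∀ a b, dist (c • (ψ0 a - ψ0 x0)) (c • (ψ0 b - ψ0 x0)) = c * dist (ψ0 a) (ψ0 b) := by
    intro a b
    rw [dist_smul₀, Real.norm_of_nonneg hc0.le, dist_sub_right]
  obtain ⟨ψ, hψd⟩ : ∃ ψ : X → E n, ψ = fun x => c • (ψ0 x - ψ0 x0) := ⟨_, rfl⟩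
  obtain ⟨L, hLd⟩ : ∃ L : ℝ, L = max (c * L0) (L0 / c) := ⟨_, rfl⟩
  have hB : BiLip n U0 ψ L := by
    refine ⟨hU0, ?_, ?_⟩
    · have h1 : ψ '' U0 = (fun z => c⁻¹ • z + ψ0 x0) ⁻¹' (ψ0 '' U0) := by
        rw [hψd]
        ext z
        constructor
        · rintro ⟨x, hx, rfl⟩
          refine ⟨x, hx, ?_⟩
          simp only [smul_smul, inv_mul_cancel₀ hc0.ne', one_smul, sub_add_cancel]
        · rintro ⟨x, hx, hxz⟩
          refine ⟨x, hx, ?_⟩
          simp only at hxz ⊢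
          rw [hxz, add_sub_cancel_right, smul_smul, mul_inv_cancel₀ hc0.ne', one_smul]
      rw [h1]
      exact hψU0.preimage (by fun_prop)
    · intro a ha b hb
      obtain ⟨h1, h2⟩ := hL0 a ha b hb
      have hab : 0 ≤ dist a b := dist_nonneg
      have hab' : 0 ≤ dist (ψ0 a) (ψ0 b) := dist_nonneg
      rw [hψd, hLd]
      simp only
      rw [hd]
      constructor
      · calc c * dist (ψ0 a) (ψ0 b) ≤ c * (L0 * dist a b) := by gcongr
          _ = (c * L0) * dist a b := by ring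
          _ ≤ max (c * L0) (L0 / c) * dist a b := by
              gcongr
              exact le_max_left _ _
      · calc dist a b ≤ L0 * dist (ψ0 a) (ψ0 b) := h2
          _ = (L0 / c) * (c * dist (ψ0 a) (ψ0 b)) := by field_simp
          _ ≤ max (c * L0) (L0 / c) * (c * dist (ψ0 a) (ψ0 b)) := by
              gcongr
              exact le_max_right _ _
  have hψ0 : ψ x0 = 0 := by rw [hψd]; simp
  have hcb : closedBall 0 4 ⊆ ψ '' U0 := by
    intro z hz
    have h1 : c⁻¹ • z + ψ0 x0 ∈ ball (ψ0 x0) r := by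
      rw [mem_ball, dist_eq_norm, add_sub_cancel_right, norm_smul, Real.norm_of_nonneg
        (inv_nonneg.2 hc0.le)]
      rw [mem_closedBall, dist_zero_right] at hz
      have h2 : c⁻¹ * ‖z‖ ≤ c⁻¹ * 4 := by gcongr
      have h3 : c⁻¹ * 4 < r := by
        rw [hc, inv_div]
        linarith
      linarith
    obtain ⟨x, hx, hxz⟩ := hball h1
    refine ⟨x, hx, ?_⟩
    rw [hψd]
    simp only at hxz ⊢
    rw [hxz, add_sub_cancel_right, smul_smul, mul_inv_cancel₀ hc0.ne', one_smul]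
  -- compactness
  set C : Set X := inv' U0 ψ x0 '' closedBall (0 : E n) 4 with hC
  have hCc : IsCompact C :=
    (isCompact_closedBall 0 4).image_of_continuousOn ((hB.inv'_cont x0).mono hcb)
  have hψc : ∀ x ∈ U0, ContinuousAt ψ x := fun x hx =>
    (hB.cont x hx).continuousAt (hB.1.mem_nhds hx)
  have hCU : ∀ x ∈ C, x ∈ U0 := by
    rintro _ ⟨y, hy, rfl⟩
    exact inv'_mem (hcb hy)
  have key : ∀ᶠ h : H in 𝓝 1, ∀ x ∈ C, h • x ∈ U0 ∧ dist (ψ (h • x)) (ψ x) ≤ 1 / 4 := by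
    apply hCc.eventually_forall_of_forall_eventually
    intro x hxC
    have hx := hCU x hxC
    have h1 : ContinuousAt (fun z : H × X => z.1 • z.2) (1, x) :=
      (continuous_fst.smul continuous_snd).continuousAt
    have h2 : ContinuousAt ψ ((1 : H) • x) := by
      rw [one_smul]
      exact hψc x hx
    have h3 : ContinuousAt (fun z : H × X => ψ (z.1 • z.2)) (1, x) :=
      ContinuousAt.comp (f := fun z : H × X => z.1 • z.2) (x := ((1 : H), x)) h2 h1
    have h4 : ContinuousAt (fun z : H × X => ψ z.2) (1, x) :=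
      ContinuousAt.comp (f := fun z : H × X => z.2) (x := ((1 : H), x)) (hψc x hx)
        continuousAt_snd
    have h5 : Tendsto (fun z : H × X => dist (ψ (z.1 • z.2)) (ψ z.2)) (𝓝 (1, x)) (𝓝 0) := by
      have h6 : Tendsto (fun z : H × X => dist (ψ (z.1 • z.2)) (ψ z.2)) (𝓝 (1, x))
        (𝓝 (dist (ψ ((1 : H) • x)) (ψ x))) := h3.dist h4
      have h7 : dist (ψ ((1 : H) • x)) (ψ x) = 0 := by rw [one_smul, dist_self]
      rwa [h7] at h6
    have h8 : ∀ᶠ z : H × X in 𝓝 (1, x), z.1 • z.2 ∈ U0 := by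
      apply h1
      apply hU0.mem_nhds
      show (1 : H) • x ∈ U0
      rwa [one_smul]
    filter_upwards [h8, h5.eventually (gt_mem_nhds (by norm_num : (0 : ℝ) < 1 / 4))] with z hz1 hz2
    exact ⟨hz1, hz2.le⟩
  obtain ⟨V, hV, hVo, hV1⟩ := eventually_nhds_iff.1 key
  obtain ⟨N, hN⟩ := ProfiniteGrp.exist_openNormalSubgroup_sub_open_nhds_of_one hVo hV1
  refine ⟨U0, ψ, L, N.toSubgroup, hB, hx0U0, hU0S, hψ0, hcb, N.isOpen, ?_⟩
  intro h hh x hx hx4
  exact hV h (hN hh) x ⟨ψ x, hx4, hB.inv'_left hx⟩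

variable {n : ℕ} {X : Type} [MetricSpace X] {S : Set X}
  {Gd : ∀ (P : Type) [Group P] [TopologicalSpace P], (P → E n → E n) → Prop}

/-- all closed subgroups act by maps of the class -/
def GoodAll (n : ℕ) {X : Type} [MetricSpace X] (S : Set X)
    (Gd : ∀ (P : Type) [Group P] [TopologicalSpace P], (P → E n → E n) → Prop)
    (H : Type) [Group H] [TopologicalSpace H] [MulAction H X] : Prop :=
  ∀ (P : Type) [Group P] [TopologicalSpace P] [IsTopologicalGroup P] [CompactSpace P]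
    [T2Space P] [TotallyDisconnectedSpace P] (i : P →* H), Continuous i →
    Good n S Gd P (fun (h : P) (x : X) => i h • x)

/-- Near every point of `S` an open subgroup acts trivially. -/
theorem locTriv (hcls : Cls n Gd) (hSo : IsOpen S) (hSR : S ⊆ Reg n X)
    {H : Type} [Group H] [TopologicalSpace H] [IsTopologicalGroup H] [CompactSpace H] [T2Space H]
    [TotallyDisconnectedSpace H] [MulAction H X] [ContinuousSMul H X]
    (hadm : GoodAll n S Gd H) {x0 : X} (hx0 : x0 ∈ S) :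
    ∃ K : Subgroup H, IsOpen (K : Set H) ∧ ∀ᶠ x in 𝓝 x0, ∀ k ∈ K, k • x = x := by
  obtain ⟨U, ψ, L, H0, hU, hxU, hUS, hψ0, hball, hH0, hsmall⟩ := start_in hSo hSR hx0 H
  have hH0c : IsClosed (H0 : Set H) := Subgroup.isClosed_of_isOpen H0 hH0
  have : CompactSpace H0 := isCompact_iff_compactSpace.1 hH0c.isCompact
  obtain ⟨hT, hTψ⟩ := chart_loc (H := H0) (x0 := x0) hU hball
    (fun h x hx hx4 => hsmall h h.2 x hx hx4)
  have hG : Gd H0 (chartAct U ψ x0 (fun (h : H0) x => h • x)) :=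
    hadm H0 H0.subtype continuous_subtype_val U ψ L x0 hU hUS hxU hball
      (fun h x hx hx4 => hsmall h h.2 x hx hx4)
  set T := chartAct U ψ x0 (fun (h : H0) x => h • x) with hTd
  obtain ⟨K, hKo, hKm⟩ := hcls.loc H0 T hT hG
  have hKc : IsClosed (K : Set H0) := Subgroup.isClosed_of_isOpen K hKo
  have : CompactSpace K := isCompact_iff_compactSpace.1 hKc.isCompact
  -- the elements of `K` acting trivially on the small ball
  have hhalf : ∀ x : E n, x ∈ ball (0 : E n) (1 / 2) → x ∈ BB n := fun x hx => by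
    have : ‖x‖ < 1 / 2 := by simpa using hx
    exact mem_BB.2 (by linarith)
  let D : Subgroup K :=
    { carrier := {k | ∀ x ∈ ball (0 : E n) (1 / 2), T (k : H0) x = x}
      mul_mem' := by
        intro a b ha hb x hx
        have hxB := hhalf x hx
        have h1 := hT.mul (a : H0) (b : H0) x hxB (by rw [hb x hx]; exact hxB)
        rw [Subgroup.coe_mul, h1, hb x hx, ha x hx]
      one_mem' := by
        intro x hx
        simpa using hT.one x (hhalf x hx)
      inv_mem' := by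
        intro a ha x hx
        have hxB := hhalf x hx
        have h1 := hT.inv (a : H0) hxB (by rw [ha x hx]; exact hxB)
        rw [ha x hx] at h1
        simpa using h1 }
  have hDc : IsClosed (D : Set K) := by
    have h1 : (D : Set K) = ⋂ x ∈ ball (0 : E n) (1 / 2), {k : K | T (k : H0) x = x} := by
      ext k
      simp only [mem_iInter]
      rfl
    rw [h1]
    refine isClosed_biInter fun x hx => ?_
    have hc : Continuous (fun k : K => T (k : H0) x) :=
      (hT.cont_left (hhalf x hx)).comp continuous_subtype_val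
    exact isClosed_eq hc continuous_const
  have hD : D = ⊤ := by
    refine Pool.Agent.Y215.HS.syl K D hDc ?_
    intro p hp P hPc hPp k hk
    have : CompactSpace P := isCompact_iff_compactSpace.1 hPc.isCompact
    have h1 : Tendsto (fun j : ℕ => (⟨k, hk⟩ : P) ^ p ^ j) atTop (𝓝 1) :=
      Pool.Agent.Y340.SP.t_POW p hp P hPp ⟨k, hk⟩
    have hc : Continuous (fun q : P => ((q : K) : H0)) :=
      continuous_subtype_val.comp continuous_subtype_val
    have h2 : Tendsto (fun j : ℕ => ((k : K) : H0) ^ p ^ j) atTop (𝓝 1) := by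
      have h3 := (hc.tendsto 1).comp h1
      simpa [Function.comp_def] using h3
    intro x hx
    exact hKm p hp (k : H0) k.2 h2 x hx
  refine ⟨K.map H0.subtype, ?_, ?_⟩
  · rw [Subgroup.coe_map]
    exact hH0.isOpenEmbedding_subtypeVal.isOpenMap _ hKo
  · have hopen : IsOpen (U ∩ ψ ⁻¹' ball 0 (1 / 2)) := hU.cont.isOpen_inter_preimage hU.1 isOpen_ball
    have hmem : x0 ∈ U ∩ ψ ⁻¹' ball 0 (1 / 2) := ⟨hxU, by simp [hψ0]⟩
    filter_upwards [hopen.mem_nhds hmem] with x hx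
    rintro k ⟨k', hk', rfl⟩
    have h1 : (⟨k', hk'⟩ : K) ∈ D := by rw [hD]; exact Subgroup.mem_top _
    have h2 : T k' (ψ x) = ψ x := h1 (ψ x) hx.2
    have hx4 : ψ x ∈ closedBall (0 : E n) 4 := hhalf _ hx.2
    have h3 := hTψ k' x hx.1 hx4
    have h4 := (hsmall (k' : H) k'.2 x hx.1 hx4).1
    refine hU.inj h4 hx.1 ?_
    rw [h2] at h3
    exact h3.symm

end Pool.Agent.Q155.HS
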