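import Pool.Agent.Q155.HS.Gen

/-!
# Hilbert-Smith: from a class of local actions to Lie groups, global part
-/

set_option autoImplicit false

open MeasureTheory Set Metric Filter Topology
open scoped ENNReal NNReal

namespace Pool.Agent.Q155.HS

open Pool.Agent.Y485.HS Pool.Agent.Y489.SP
open Pool.Agent.W660.GY (NSS GY3)

variable {n : ℕ} {X : Type} [MetricSpace X] {S : Set X}
  {Gd : ∀ (P : Type) [Group P] [TopologicalSpace P], (P → E n → E n) → Prop}

/-- Newman's theorem for the class -/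
theorem newman (hn : 1 ≤ n) (hcls : Cls n Gd) (hSo : IsOpen S) (hSR : S ⊆ Reg n X)
    {p : ℕ} (hp : p.Prime) (P : Type) [Group P] [TopologicalSpace P] [IsTopologicalGroup P]
    [CompactSpace P] [T2Space P] [TotallyDisconnectedSpace P] (hPp : ProP p P) [MulAction P X]
    [ContinuousSMul P X] (hadm : GoodAll n S Gd P) {x0 : X} (hx0 : x0 ∈ S)
    (K : Subgroup P) (hK : IsOpen (K : Set P)) (hKt : ∀ᶠ x in 𝓝 x0, ∀ k ∈ K, k • x = x)
    (hcl : ∀ V ∈ 𝓝 x0, ∃ a ∈ V, ∀ᶠ x in 𝓝 a, ∀ k : P, k • x = x) :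
    ∀ᶠ x in 𝓝 x0, ∀ k : P, k • x = x := by
  by_contra hcon
  obtain ⟨U, ψ, L, hU, hxU, hUS⟩ := chart_in hSo hSR hx0
  -- `x0` is fixed
  have hfix0 : ∀ k : P, k • x0 = x0 := by
    have h1 : IsClosed {x : X | ∀ k : P, k • x = x} := by
      have : {x : X | ∀ k : P, k • x = x} = ⋂ k : P, {x | k • x = x} := by ext; simp
      rw [this]
      exact isClosed_iInter fun k => isClosed_eq (continuous_const_smul k) continuous_id
    have h2 : x0 ∈ closure {x : X | ∀ k : P, k • x = x} := by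
      rw [mem_closure_iff_nhds]
      intro V hV
      obtain ⟨a, haV, ha⟩ := hcl V hV
      exact ⟨a, haV, ha.self_of_nhds⟩
    rw [h1.closure_eq] at h2
    exact h2
  -- a neighbourhood which stays in the chart
  have hstay : ∀ᶠ x in 𝓝 x0, ∀ k : P, k • x ∈ U := by
    have h1 : ∀ k ∈ (univ : Set P), ∀ᶠ q : X × P in 𝓝 (x0, k), q.2 • q.1 ∈ U := by
      intro k _
      have hc : Continuous (fun q : X × P => q.2 • q.1) := by fun_prop
      have hc' : ContinuousAt (fun q : X × P => q.2 • q.1) (x0, k) := hc.continuousAt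
      refine hc'.eventually_mem ?_
      show U ∈ 𝓝 (k • x0)
      rw [hfix0 k]
      exact hU.1.mem_nhds hxU
    have h2 := isCompact_univ.eventually_forall_of_forall_eventually
      (P := fun (x : X) (k : P) => k • x ∈ U) h1
    filter_upwards [h2] with x hx k using hx k (mem_univ k)
  set z : E n := ψ x0 with hz
  set θ : E n → X := inv' U ψ x0 with hθ
  have hθc : ContinuousOn θ (ψ '' U) := hU.inv'_cont x0
  have hθψ : ∀ x ∈ U, θ (ψ x) = x := fun x hx => hU.inv'_left hx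
  have hψθ : ∀ y ∈ ψ '' U, ψ (θ y) = y := fun y hy => inv'_eq hy
  have hθU : ∀ y ∈ ψ '' U, θ y ∈ U := fun y hy => inv'_mem hy
  have hzU : z ∈ ψ '' U := mem_image_of_mem ψ hxU
  have hnz : ψ '' U ∈ 𝓝 z := hU.2.1.mem_nhds hzU
  have hG : ∀ᶠ y in 𝓝 z, y ∈ ψ '' U ∧ (∀ k : P, k • θ y ∈ U) ∧ ∀ k ∈ K, k • θ y = θ y := by
    have h1 : Tendsto θ (𝓝 z) (𝓝 x0) := by
      have := (hθc z hzU).continuousAt hnz
      rw [ContinuousAt, hz, hθψ x0 hxU] at this
      exact this
    filter_upwards [hnz, h1.eventually hstay, h1.eventually hKt] with y h2 h3 h4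
    exact ⟨h2, h3, h4⟩
  obtain ⟨ρ, hρ, hρG⟩ := (nhds_basis_closedBall.mem_iff).1 hG
  have hρU : closedBall z ρ ⊆ ψ '' U := fun y hy => (hρG hy).1
  let T0 : P → E n → E n := fun k y => ψ (k • θ y)
  have hT0c : ContinuousOn (fun q : P × E n => T0 q.1 q.2) (univ ×ˢ closedBall z ρ) := by
    have h1 : ContinuousOn (fun q : P × E n => θ q.2) (univ ×ˢ closedBall z ρ) :=
      hθc.comp continuousOn_snd (fun q hq => hρU hq.2)
    have h2 : ContinuousOn (fun q : P × E n => q.1 • θ q.2) (univ ×ˢ closedBall z ρ) :=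
      continuousOn_fst.smul h1
    exact hU.cont.comp h2 (fun q hq => (hρG hq.2).2.1 q.1)
  have hT01 : ∀ x ∈ closedBall z ρ, T0 1 x = x := fun y hy => by
    show ψ ((1 : P) • θ y) = y
    rw [one_smul, hψθ y (hρU hy)]
  have hT0m : ∀ h k, ∀ x ∈ closedBall z ρ, T0 k x ∈ closedBall z ρ →
      T0 (h * k) x = T0 h (T0 k x) := by
    intro h k y hy _
    show ψ ((h * k) • θ y) = ψ (h • θ (ψ (k • θ y)))
    rw [hθψ _ ((hρG hy).2.1 k), mul_smul]
  have hV : U ∩ ψ ⁻¹' ball z ρ ∈ 𝓝 x0 :=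
    (hU.cont.isOpen_inter_preimage hU.1 isOpen_ball).mem_nhds ⟨hxU, mem_ball_self hρ⟩
  obtain ⟨a, haV, ha⟩ := hcl _ hV
  obtain ⟨x1, hx1V, hx1⟩ : ∃ x1 ∈ U ∩ ψ ⁻¹' ball z ρ, ¬ ∀ k : P, k • x1 = x1 := by
    by_contra h
    push Not at h
    exact hcon (mem_of_superset hV fun x hx => h x hx)
  push Not at hx1
  obtain ⟨k1, hk1⟩ := hx1
  have ha' : ∀ᶠ y in 𝓝 (ψ a), ∀ k, T0 k y = y := by
    have hmem : ψ '' U ∈ 𝓝 (ψ a) := hU.2.1.mem_nhds (mem_image_of_mem ψ haV.1)
    have h1 : Tendsto θ (𝓝 (ψ a)) (𝓝 a) := by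
      have := (hθc (ψ a) (mem_image_of_mem ψ haV.1)).continuousAt hmem
      rw [ContinuousAt, hθψ a haV.1] at this
      exact this
    filter_upwards [hmem, h1.eventually ha] with y hy h2 k
    show ψ (k • θ y) = y
    rw [h2 k, hψθ y hy]
  have hx1' : ∃ k, T0 k (ψ x1) ≠ ψ x1 := by
    refine ⟨k1, ?_⟩
    show ψ (k1 • θ (ψ x1)) ≠ ψ x1
    rw [hθψ x1 hx1V.1]
    intro h
    have h2 := (hρG (ball_subset_closedBall hx1V.2)).2.1 k1
    rw [hθψ x1 hx1V.1] at h2
    exact hk1 (hU.inj h2 hx1V.1 h)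
  obtain ⟨w, O, Φ, L', ⟨kw, hkw⟩, hwO, hOρ, hOo, hΦO, hΦL, hΦw, hΦB, hΦs⟩ :=
    Pool.Agent.Y665.HS.coord n hn P T0 z ρ hρ hT0c hT01 hT0m (ψ a) haV.2 (ψ x1) hx1V.2 ha' hx1'
  have hOU : O ⊆ ψ '' U := fun y hy => hρU (ball_subset_closedBall (hOρ hy))
  -- the new chart
  let U1 : Set X := U ∩ ψ ⁻¹' O
  let ψ1 : X → E n := fun x => Φ (ψ x)
  have himg : ψ1 '' U1 = Φ '' O := by
    ext y
    constructor
    · rintro ⟨x, ⟨hx, hxO⟩, rfl⟩
      exact ⟨ψ x, hxO, rfl⟩
    · rintro ⟨v, hv, rfl⟩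
      obtain ⟨x, hx, rfl⟩ := hOU hv
      exact ⟨x, ⟨hx, hv⟩, rfl⟩
  have hU1 : BiLip n U1 ψ1 (|L| * |L'|) := by
    refine ⟨hU.cont.isOpen_inter_preimage hU.1 hOo, by rw [himg]; exact hΦO, ?_⟩
    rintro b ⟨hb, hbO⟩ c ⟨hc, hcO⟩
    have h1 := hU.2.2 b hb c hc
    have h2 := hΦL (ψ b) hbO (ψ c) hcO
    have d1 : (0 : ℝ) ≤ dist (ψ b) (ψ c) := dist_nonneg
    have d2 : (0 : ℝ) ≤ dist b c := dist_nonneg
    have d3 : (0 : ℝ) ≤ dist (Φ (ψ b)) (Φ (ψ c)) := dist_nonneg
    constructor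
    · calc dist (Φ (ψ b)) (Φ (ψ c)) ≤ L' * dist (ψ b) (ψ c) := h2.1
        _ ≤ |L'| * dist (ψ b) (ψ c) := mul_le_mul_of_nonneg_right (le_abs_self _) d1
        _ ≤ |L'| * (|L| * dist b c) := by
            refine mul_le_mul_of_nonneg_left (h1.1.trans ?_) (abs_nonneg _)
            exact mul_le_mul_of_nonneg_right (le_abs_self _) d2
        _ = |L| * |L'| * dist b c := by ring
    · calc dist b c ≤ L * dist (ψ b) (ψ c) := h1.2
        _ ≤ |L| * dist (ψ b) (ψ c) := mul_le_mul_of_nonneg_right (le_abs_self _) d1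
        _ ≤ |L| * (|L'| * dist (Φ (ψ b)) (Φ (ψ c))) := by
            refine mul_le_mul_of_nonneg_left (h2.2.trans ?_) (abs_nonneg _)
            exact mul_le_mul_of_nonneg_right (le_abs_self _) d3
        _ = |L| * |L'| * dist (Φ (ψ b)) (Φ (ψ c)) := by ring
  have hρx : ∀ x ∈ U1, (∀ k : P, k • x ∈ U) ∧ ∀ k ∈ K, k • x = x := by
    rintro x ⟨hx, hxO⟩
    have := hρG (ball_subset_closedBall (hOρ hxO))
    rw [Set.mem_ofPred_eq, hθψ x hx] at this
    exact this.2
  have hsmall1 : ∀ h : P, ∀ x ∈ U1, ψ1 x ∈ closedBall 0 4 →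
      h • x ∈ U1 ∧ dist (ψ1 (h • x)) (ψ1 x) ≤ 1 / 4 := by
    rintro h x hx hx4
    have h1 := hΦs (ψ x) hx.2 hx4 h
    have h2 : T0 h (ψ x) = ψ (h • x) := by
      show ψ (h • θ (ψ x)) = _
      rw [hθψ x hx.1]
    rw [h2] at h1
    exact ⟨⟨(hρx x hx).1 h, h1.1⟩, h1.2⟩
  obtain ⟨xw, hxw, hxww⟩ := hOU hwO
  have hxw1 : xw ∈ U1 := ⟨hxw, by rw [mem_preimage, hxww]; exact hwO⟩
  have hBU1 : closedBall 0 4 ⊆ ψ1 '' U1 := by rw [himg]; exact hΦB
  obtain ⟨hT1, hT1ψ⟩ := chart_loc (H := P) (x0 := xw) hU1 hBU1 hsmall1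
  have hG : Gd P (chartAct U1 ψ1 xw (fun (h : P) x => h • x)) :=
    hadm P (MonoidHom.id P) continuous_id U1 ψ1 _ xw hU1 (inter_subset_left.trans hUS) hxw1 hBU1
      hsmall1
  set T1 := chartAct U1 ψ1 xw (fun (h : P) x => h • x) with hT1d
  have hKt1 : ∀ k' ∈ K, ∀ y ∈ BB n, T1 k' y = y := by
    intro k' hk' y hy
    obtain ⟨x, hx, rfl⟩ := hBU1 hy
    rw [hT1ψ _ x hx hy, (hρx x hx).2 k' hk']
  have hfin := hcls.fin P T1 hT1 hG K hK hKt1 p hp kw
    (Pool.Agent.Y340.SP.t_POW p hp P hPp kw)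
  have hψ1w : ψ1 xw = 0 := by show Φ (ψ xw) = 0; rw [hxww, hΦw]
  have h1 := hT1ψ kw xw hxw1 (by rw [hψ1w]; simp)
  rw [hψ1w, hfin] at h1
  have h2 : T0 kw w = ψ (kw • xw) := by
    show ψ (kw • θ w) = _
    rw [← hxww, hθψ xw hxw]
  have h3 := (hΦs w hwO (by rw [hΦw]; simp) kw).1
  have h4 := (hΦL _ h3 w hwO).2
  have h5 : Φ (T0 kw w) = 0 := by rw [h2]; exact h1.symm
  rw [h5, hΦw, dist_self, mul_zero] at h4
  exact hkw (dist_le_zero.1 h4)

/-- A profinite group acting by maps of the class has an open subgroup which acts trivially. -/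
theorem profinite (hn : 1 ≤ n) (hcls : Cls n Gd) (hSo : IsOpen S) (hSR : S ⊆ Reg n X)
    {H : Type} [Group H] [TopologicalSpace H] [IsTopologicalGroup H] [CompactSpace H] [T2Space H]
    [TotallyDisconnectedSpace H] [MulAction H X] [ContinuousSMul H X]
    (hdense : Dense S) (hconn : IsPreconnected S) (hadm : GoodAll n S Gd H) :
    ∃ K : Subgroup H, IsOpen (K : Set H) ∧ ∀ k ∈ K, ∀ x : X, k • x = x := by
  rcases isEmpty_or_nonempty X with hX | hX
  · exact ⟨⊤, isOpen_univ, fun k _ x => (hX.false x).elim⟩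
  obtain ⟨x0, hx0⟩ := hdense.nonempty
  obtain ⟨K, hKo, hKt⟩ := locTriv hcls hSo hSR hadm hx0
  refine ⟨K, hKo, ?_⟩
  have hKc : IsClosed (K : Set H) := Subgroup.isClosed_of_isOpen K hKo
  have : CompactSpace K := isCompact_iff_compactSpace.1 hKc.isCompact
  let D : Subgroup K :=
    { carrier := {k | ∀ x : X, (k : H) • x = x}
      mul_mem' := by
        intro a b ha hb x
        rw [Subgroup.coe_mul, mul_smul, hb x, ha x]
      one_mem' := by
        intro x
        simp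
      inv_mem' := by
        intro a ha x
        rw [Subgroup.coe_inv, inv_smul_eq_iff, ha x] }
  have hDc : IsClosed (D : Set K) := by
    have h1 : (D : Set K) = ⋂ x : X, {k : K | (k : H) • x = x} := by
      ext k
      simp only [mem_iInter]
      rfl
    rw [h1]
    refine isClosed_iInter fun x => ?_
    have hc : Continuous (fun k : K => (k : H) • x) := by fun_prop
    exact isClosed_eq hc continuous_const
  have hD : D = ⊤ := by
    refine Pool.Agent.Y215.HS.syl K D hDc ?_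
    intro p hp P hPc hPp k hk
    have : CompactSpace P := isCompact_iff_compactSpace.1 hPc.isCompact
    -- the interior of the fixed set of `P`
    let Z : Set X := {x | ∀ᶠ y in 𝓝 x, ∀ q : P, q • y = y}
    have hZo : IsOpen Z := by
      rw [isOpen_iff_mem_nhds]
      intro x hx
      exact eventually_eventually_nhds.2 hx
    have hZx : x0 ∈ Z := by
      filter_upwards [hKt] with y hy q
      exact hy ((q : K) : H) (q : K).2
    have hsub : S ⊆ Z := by
      refine hconn.subset_of_closure_inter_subset hZo ⟨x0, hx0, hZx⟩ ?_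
      rintro x ⟨hxZ, hxR⟩
      obtain ⟨K', hK'o, hK't⟩ := locTriv hcls hSo hSR hadm hxR
      let K'' : Subgroup P := K'.comap (K.subtype.comp P.subtype)
      have hK''o : IsOpen (K'' : Set P) := by
        refine hK'o.preimage ?_
        exact continuous_subtype_val.comp continuous_subtype_val
      refine newman hn hcls hSo hSR hp P hPp (fun Q _ _ _ _ _ _ i hi =>
        hadm Q ((K.subtype.comp P.subtype).comp i)
          ((continuous_subtype_val.comp continuous_subtype_val).comp hi)) hxR K'' hK''o ?_ ?_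
      · filter_upwards [hK't] with y hy q hq
        exact hy _ hq
      · intro V hV
        obtain ⟨a, haV, haZ⟩ := mem_closure_iff_nhds.1 hxZ V hV
        exact ⟨a, haV, haZ⟩
    intro x
    have hcl : IsClosed {x : X | (k : H) • x = x} :=
      isClosed_eq (continuous_const_smul (k : H)) continuous_id
    have h2 : S ⊆ {x : X | (k : H) • x = x} := by
      intro y hy
      exact (hsub hy).self_of_nhds ⟨k, hk⟩
    have h3 := hcl.closure_subset_iff.2 h2
    rw [hdense.closure_eq] at h3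
    exact h3 (mem_univ x)
  intro k hk x
  have h1 : (⟨k, hk⟩ : K) ∈ D := by rw [hD]; exact Subgroup.mem_top _
  exact h1 x

/-- No small subgroups. -/
theorem nss_main (hn : 1 ≤ n) (hcls : Cls n Gd) (hSo : IsOpen S) (hSR : S ⊆ Reg n X)
    {G : Type} [Group G] [TopologicalSpace G] [IsTopologicalGroup G] [LocallyCompactSpace G]
    [MulAction G X] [ContinuousSMul G X] [FaithfulSMul G X]
    (hdense : Dense S) (hconn : IsPreconnected S) (V : Set G) (hV : V ∈ 𝓝 (1 : G))
    (hadm : ∀ (P : Type) [Group P] [TopologicalSpace P] [IsTopologicalGroup P] [CompactSpace P]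
      [T2Space P] [TotallyDisconnectedSpace P] (i : P →* G), Continuous i → (∀ h, i h ∈ V) →
      Good n S Gd P (fun (h : P) (x : X) => i h • x)) : T2Space G ∧ NSS G := by
  have hT2 : T2Space G := by
    refine ⟨fun g h hgh => ?_⟩
    obtain ⟨x, hx⟩ : ∃ x : X, g • x ≠ h • x := by
      by_contra hall
      push Not at hall
      exact hgh (eq_of_smul_eq_smul hall)
    obtain ⟨u, v, hu, hv, hgu, hhv, huv⟩ := t2_separation hx
    have hc : Continuous (fun g : G => g • x) := by fun_prop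
    exact ⟨_, _, hu.preimage hc, hv.preimage hc, hgu, hhv, huv.preimage _⟩
  refine ⟨hT2, nss_of_Z _ hV ?_⟩
  intro Q _ _ _ _ _ _ i hi hinj hiV
  let _ : MulAction Q X := MulAction.compHom X i
  have _ : ContinuousSMul Q X := ⟨by
    have h : Continuous (fun q : Q × X => i q.1 • q.2) := by fun_prop
    exact h⟩
  obtain ⟨K, hKo, hKt⟩ := profinite hn hcls hSo hSR (H := Q) (X := X) hdense hconn
    (fun P _ _ _ _ _ _ i' hi' => hadm P (i.comp i') (hi.comp hi') (fun h => hiV _))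
  have hbot : K = ⊥ := by
    rw [eq_bot_iff]
    intro k hk
    rw [Subgroup.mem_bot]
    apply hinj
    refine eq_of_smul_eq_smul (α := X) fun x => ?_
    rw [map_one, one_smul]
    exact hKt k hk x
  rw [hbot] at hKo
  refine discreteTopology_of_isOpen_singleton_one ?_
  convert hKo using 1
  ext x
  simp

/-- The Hilbert-Smith conjecture for the class. -/
theorem lie_main (hn : 1 ≤ n) (hcls : Cls n Gd) (hSo : IsOpen S) (hSR : S ⊆ Reg n X)
    {G : Type} [Group G] [TopologicalSpace G] [IsTopologicalGroup G] [LocallyCompactSpace G]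
    [MulAction G X] [ContinuousSMul G X] [FaithfulSMul G X]
    (hdense : Dense S) (hconn : IsPreconnected S) (V : Set G) (hV : V ∈ 𝓝 (1 : G))
    (hadm : ∀ (P : Type) [Group P] [TopologicalSpace P] [IsTopologicalGroup P] [CompactSpace P]
      [T2Space P] [TotallyDisconnectedSpace P] (i : P →* G), Continuous i → (∀ h, i h ∈ V) →
      Good n S Gd P (fun (h : P) (x : X) => i h • x)) : IsLie G := by
  obtain ⟨hT, hN⟩ := nss_main hn hcls hSo hSR hdense hconn V hV hadm
  haveI := hT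
  obtain ⟨E, i1, i2, i3, ⟨C⟩⟩ := Pool.Agent.Y328.HS.lga G hN
  letI := i1
  letI := i2
  haveI := i3
  exact Pool.Agent.Y286.HS.lgb G E C


end Pool.Agent.Q155.HS
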