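import Pool.Agent.Q155.HS.App
import Pool.Agent.Y858.HS.Tr

/-!
# Hilbert-Smith: Sobolev maps off an exceptional set
-/

set_option autoImplicit false

open MeasureTheory Set Metric Filter Topology
open scoped ENNReal NNReal

namespace Pool.Agent.Q155.HS

open Pool.Agent.Y485.HS Pool.Agent.Y489.SP

/-- the power rate gives the class of small energies along dyadic scales -/
lemma en_at {n N : ℕ} {u : E n → E n} (h : En N u) (ε : ℝ) (hε : 0 < ε) :
    ∀ᶠ j : ℕ in atTop, EnAt ((1 / 2 : ℝ) ^ j) ε u := by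
  have hr0 : ∀ j : ℕ, (0 : ℝ) < (1 / 2 : ℝ) ^ j := fun j => by positivity
  have hr1 : ∀ j : ℕ, (1 / 2 : ℝ) ^ j ≤ 1 := fun j => pow_le_one₀ (by norm_num) (by norm_num)
  rcases Nat.eq_zero_or_pos N with h0 | hN
  · refine Eventually.of_forall fun j A hA hs => ?_
    have h1 := h _ (hr0 j) (hr1 j) A hA hs
    rw [h0, Nat.cast_zero, zero_mul] at h1
    have h2 := mul_le_mul_of_nonneg_left h1 (hr0 j).le
    rw [mul_zero] at h2
    linarith
  · have hN' : (0 : ℝ) < N := by exact_mod_cast hN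
    have ht : Tendsto (fun j : ℕ => (N : ℝ) * ((1 / 2 : ℝ) ^ (1 / (N : ℝ))) ^ j) atTop
        (𝓝 (N * 0)) := by
      refine (tendsto_pow_atTop_nhds_zero_of_lt_one (by positivity) ?_).const_mul _
      exact Real.rpow_lt_one (by norm_num) (by norm_num) (by positivity)
    rw [mul_zero] at ht
    filter_upwards [ht.eventually (gt_mem_nhds hε)] with j hj A hA hs
    have h1 := h _ (hr0 j) (hr1 j) A hA hs
    have h4 : (1 / 2 : ℝ) ^ j * ((1 / 2 : ℝ) ^ j) ^ (1 / (N : ℝ) - 1) =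
        ((1 / 2 : ℝ) ^ (1 / (N : ℝ))) ^ j := by
      rw [Real.rpow_sub_one (hr0 j).ne', mul_div_cancel₀ _ (hr0 j).ne',
        Real.rpow_pow_comm (by norm_num)]
    calc (1 / 2 : ℝ) ^ j * ∑ a ∈ A, Metric.diam (u '' (closedBall a ((1 / 2 : ℝ) ^ j) ∩
          closedBall 0 3)) ^ n
        ≤ (1 / 2 : ℝ) ^ j * (N * ((1 / 2 : ℝ) ^ j) ^ (1 / (N : ℝ) - 1)) := by gcongr
      _ = N * ((1 / 2 : ℝ) ^ j * ((1 / 2 : ℝ) ^ j) ^ (1 / (N : ℝ) - 1)) := by ring
      _ = N * ((1 / 2 : ℝ) ^ (1 / (N : ℝ))) ^ j := by rw [h4]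
      _ ≤ ε := hj.le

/-- the Sobolev class of exponent `q` on compact subsets of `S` -/
def XSob (n : ℕ) (q : ℝ) {X : Type} [MetricSpace X] [MeasurableSpace X] [BorelSpace X]
    (S : Set X) (f : X → X) : Prop :=
  ∀ C ⊆ S, IsCompact C → ∃ g : X → ℝ≥0∞, Measurable g ∧
    (∀ a ∈ C, ∀ b ∈ C, edist (f a) (f b) ≤ edist a b * (g a + g b)) ∧
    ∫⁻ a in C, g a ^ q ∂(Measure.hausdorffMeasure (n : ℝ)) < ∞

/-- Sobolev maps in a chart -/
lemma chart_sob {n : ℕ} {X : Type} [MetricSpace X] [MeasurableSpace X] [BorelSpace X]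
    {U : Set X} {ψ : X → E n} {θ : E n → X} {K : ℝ≥0} (hF : ChF U ψ θ K) (x0 : X) (f : X → X)
    (hfU : ∀ y ∈ BB n, f (θ y) ∈ U) (q : ℝ) (hq0 : 0 < q)
    (hSob : ∃ g : X → ℝ≥0∞, Measurable g ∧
      (∀ a ∈ θ '' BB n, ∀ b ∈ θ '' BB n, edist (f a) (f b) ≤ edist a b * (g a + g b)) ∧
      ∫⁻ a in θ '' BB n, g a ^ q ∂(Measure.hausdorffMeasure (n : ℝ)) < ∞) :
    SobP q (fun y => ψ (f (θ y))) := by
  classical
  obtain ⟨g, hgm, hgH, hgE⟩ := hSob
  obtain ⟨C, hC⟩ : ∃ C : Set X, C = θ '' BB n := ⟨_, rfl⟩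
  rw [← hC] at hgH hgE
  have hlip := hF.lip
  have hθlip := hF.lip'
  have hθc := hθlip.continuousOn
  have hCU : C ⊆ U := by
    rw [hC]
    rintro _ ⟨y, hy, rfl⟩
    exact hF.mem y hy
  have hBm : MeasurableSet (BB n) := isClosed_closedBall.measurableSet
  obtain ⟨θ', hθ'⟩ : ∃ θ' : E n → X, θ' = (BB n).piecewise θ (fun _ => x0) := ⟨_, rfl⟩
  have hθ'm : Measurable θ' := by
    rw [hθ']
    exact hθc.measurable_piecewise continuousOn_const hBm
  have hθ'e : ∀ y ∈ BB n, θ' y = θ y := by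
    intro y hy
    rw [hθ']
    exact piecewise_eq_of_mem _ _ _ hy
  obtain ⟨g', hg'⟩ : ∃ g' : E n → ℝ≥0∞, g' = fun y => (K : ℝ≥0∞) * (K : ℝ≥0∞) * g (θ' y) :=
    ⟨_, rfl⟩
  have hg'm : Measurable g' := by
    rw [hg']
    exact (hgm.comp hθ'm).const_mul _
  have hHaj : Haj (BB n) (fun y => ψ (f (θ y))) g' := by
    intro x hx y hy
    have h1 := hlip (hfU x hx) (hfU y hy)
    have h2 := hgH (θ x) (hC ▸ mem_image_of_mem θ hx) (θ y) (hC ▸ mem_image_of_mem θ hy)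
    have h3 := hθlip hx hy
    rw [hg']
    simp only
    rw [hθ'e x hx, hθ'e y hy]
    calc edist (ψ (f (θ x))) (ψ (f (θ y))) ≤ K * edist (f (θ x)) (f (θ y)) := h1
      _ ≤ K * (edist (θ x) (θ y) * (g (θ x) + g (θ y))) := by gcongr
      _ ≤ K * ((K * edist x y) * (g (θ x) + g (θ y))) := by gcongr
      _ = edist x y * (K * K * g (θ x) + K * K * g (θ y)) := by ring
  have hEn : ∫⁻ y in BB n, g' y ^ q < ∞ := by
    obtain ⟨c, hc⟩ := Pool.Agent.Y858.HS.vol_haus n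
    have hmap : (volume.restrict (BB n)).map θ' ≤
        ((c : ℝ≥0∞) * (K : ℝ≥0∞) ^ n) • (Measure.hausdorffMeasure (n : ℝ)).restrict C := by
      refine Measure.le_iff.2 fun A hA => ?_
      rw [Measure.map_apply hθ'm hA, Measure.restrict_apply (hθ'm hA), Measure.smul_apply,
        Measure.restrict_apply hA, smul_eq_mul]
      have hsub : θ' ⁻¹' A ∩ BB n ⊆ ψ '' (A ∩ C) := by
        rintro y ⟨hyA, hyB⟩
        refine ⟨θ y, ⟨?_, hC ▸ mem_image_of_mem θ hyB⟩, hF.eq y hyB⟩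
        rw [← hθ'e y hyB]
        exact hyA
      have hh := (hlip.mono
        (inter_subset_right.trans hCU : A ∩ C ⊆ U)).hausdorffMeasure_image_le
        (d := (n : ℝ)) (Nat.cast_nonneg n)
      calc volume (θ' ⁻¹' A ∩ BB n) ≤ volume (ψ '' (A ∩ C)) := measure_mono hsub
        _ = c * Measure.hausdorffMeasure (n : ℝ) (ψ '' (A ∩ C)) := hc _
        _ ≤ c * ((K : ℝ≥0∞) ^ (n : ℝ) * Measure.hausdorffMeasure (n : ℝ) (A ∩ C)) := by
          gcongr
        _ = c * (K : ℝ≥0∞) ^ n * Measure.hausdorffMeasure (n : ℝ) (A ∩ C) := by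
          rw [ENNReal.rpow_natCast, mul_assoc]
    have h1 : ∫⁻ y in BB n, g (θ' y) ^ q < ∞ := by
      have h2 : ∫⁻ y in BB n, g (θ' y) ^ q =
          ∫⁻ x, g x ^ q ∂((volume.restrict (BB n)).map θ') :=
        (lintegral_map (hgm.pow_const q) hθ'm).symm
      rw [h2]
      refine lt_of_le_of_lt (lintegral_mono' hmap le_rfl) ?_
      rw [lintegral_smul_measure, smul_eq_mul]
      refine ENNReal.mul_lt_top ?_ hgE
      exact ENNReal.mul_lt_top ENNReal.coe_lt_top (ENNReal.pow_lt_top ENNReal.coe_lt_top)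
    have h3 : ∫⁻ y in BB n, g' y ^ q =
        ((K : ℝ≥0∞) * (K : ℝ≥0∞)) ^ q * ∫⁻ y in BB n, g (θ' y) ^ q := by
      rw [hg']
      have hm2 : Measurable (fun y => g (θ' y) ^ q) := (hgm.comp hθ'm).pow_const q
      rw [← lintegral_const_mul _ hm2]
      simp only [ENNReal.mul_rpow_of_nonneg _ _ hq0.le]
    rw [h3]
    exact ENNReal.mul_lt_top (ENNReal.rpow_lt_top_of_nonneg hq0.le
      (ENNReal.mul_lt_top ENNReal.coe_lt_top ENNReal.coe_lt_top).ne) h1
  exact ⟨g', hg'm, hHaj, hEn⟩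

theorem sobS : S_SOB :=
  Pool.Agent.Y662.SP.SOB.t_SOB (Pool.Agent.Y566.SP.t_FACE Pool.Agent.Y909.SP.t_MOR)

theorem good_sob {n : ℕ} (hn : 2 ≤ n) {X : Type} [MetricSpace X] [MeasurableSpace X]
    [BorelSpace X] {S : Set X}
    {G : Type} [Group G] [TopologicalSpace G] [MulAction G X] [ContinuousSMul G X]
    {V : Set G} (hV : ∀ g ∈ V, ∃ q : ℝ, (n : ℝ) - 1 < q ∧ XSob n q S (fun x : X => g • x))
    (P : Type) [Group P] [TopologicalSpace P] [IsTopologicalGroup P] [CompactSpace P] [T2Space P]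
    [TotallyDisconnectedSpace P] (i : P →* G) (hi : Continuous i)
    (hiV : ∀ h, i h ∈ V) :
    Good n S (GdS n) P (fun (h : P) (x : X) => i h • x) := by
  intro U ψ L x0 hψ hUS hx0 hBU hact
  obtain ⟨K, hF⟩ := chf (x0 := x0) hψ hBU
  have hCS : inv' U ψ x0 '' BB n ⊆ S := by
    rintro _ ⟨y, hy, rfl⟩
    exact hUS (hF.mem y hy)
  let _ : MulAction P X := MulAction.compHom X i
  have _ : ContinuousSMul P X := ⟨by
    have h : Continuous (fun q : P × X => i q.1 • q.2) := by fun_prop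
    exact h⟩
  obtain ⟨hT, -⟩ := chart_loc (H := P) (x0 := x0) hψ hBU hact
  refine ⟨fun j => (1 / 2 : ℝ) ^ j, fun j => by positivity, fun h ε hε => ?_⟩
  obtain ⟨q, hq, hS⟩ := hV (i h) (hiV h)
  have hn2 : (2 : ℝ) ≤ n := by exact_mod_cast hn
  have h1 := chart_sob hF x0 (fun x : X => i h • x)
    (fun y hy => (hact h _ (hF.mem y hy) (by rw [hF.eq y hy]; exact hy)).1) q (by linarith)
    (hS _ hCS hF.comp)
  obtain ⟨N, hN⟩ := sobS n hn P _ hT h q hq h1
  exact en_at hN ε hε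

/-- Hilbert-Smith for Sobolev maps off an exceptional set -/
theorem lie_sob {n : ℕ} (hn : 2 ≤ n) {X : Type} [MetricSpace X] [MeasurableSpace X]
    [BorelSpace X] {S : Set X} (hSo : IsOpen S)
    (hSR : S ⊆ Reg n X) (hd : Dense S) (hc : IsPreconnected S)
    {G : Type} [Group G] [TopologicalSpace G] [IsTopologicalGroup G] [LocallyCompactSpace G]
    [MulAction G X] [ContinuousSMul G X] [FaithfulSMul G X]
    (h : ∀ᶠ g in 𝓝 (1 : G), ∃ q : ℝ, (n : ℝ) - 1 < q ∧ XSob n q S (fun x : X => g • x)) :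
    IsLie G :=
  lie_main (by omega) (cls_S (by omega)) hSo hSR hd hc _ h
    (fun P _ _ _ _ _ _ i hi hiV => good_sob hn (fun _ hg => hg) P i hi hiV)

end Pool.Agent.Q155.HS
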