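import Pool.Agent.Q155.HS.Gen2

/-!
# Hilbert-Smith: classes of maps of the metric space
-/

set_option autoImplicit false

open MeasureTheory Set Metric Filter Topology
open scoped ENNReal NNReal

namespace Pool.Agent.Q155.HS

open Pool.Agent.Y485.HS Pool.Agent.Y489.SP

/-- the discrete energy of `f` on `C` at scale `r`, with balls of radius `c * r`, is at most `ε` -/
def XEn (n : ℕ) {X : Type} [MetricSpace X] (C : Set X) (c : ℕ) (r ε : ℝ) (f : X → X) : Prop :=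
  ∀ A : Finset X, (∀ a ∈ A, a ∈ C) → (∀ a ∈ A, ∀ b ∈ A, a ≠ b → r ≤ dist a b) →
    r * ∑ a ∈ A, Metric.diam (f '' (closedBall a (c * r) ∩ C)) ^ n ≤ ε

/-- facts on a chart -/
structure ChF {n : ℕ} {X : Type} [MetricSpace X] (U : Set X) (ψ : X → E n) (θ : E n → X)
    (K : ℝ≥0) : Prop where
  one : (1 : ℝ) ≤ K
  lip : LipschitzOnWith K ψ U
  mem : ∀ y ∈ BB n, θ y ∈ U
  eq : ∀ y ∈ BB n, ψ (θ y) = y
  lip' : LipschitzOnWith K θ (BB n)

lemma chf {n : ℕ} {X : Type} [MetricSpace X] {U : Set X} {ψ : X → E n} {L : ℝ} {x0 : X}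
    (hψ : BiLip n U ψ L) (hBU : closedBall 0 4 ⊆ ψ '' U) :
    ∃ K : ℝ≥0, ChF U ψ (inv' U ψ x0) K := by
  obtain ⟨K, hK⟩ : ∃ K : ℝ≥0, K = max (Real.toNNReal L) 1 := ⟨_, rfl⟩
  have hK1' : (1 : ℝ≥0) ≤ K := by rw [hK]; exact le_max_right _ _
  have hK1 : (1 : ℝ) ≤ K := by exact_mod_cast hK1'
  have hLK : L ≤ (K : ℝ) := by
    have h1 : Real.toNNReal L ≤ K := by rw [hK]; exact le_max_left _ _
    exact (Real.le_coe_toNNReal L).trans (by exact_mod_cast h1)
  have hmem : ∀ y ∈ BB n, inv' U ψ x0 y ∈ U := fun y hy => inv'_mem (hBU hy)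
  have heq : ∀ y ∈ BB n, ψ (inv' U ψ x0 y) = y := fun y hy => inv'_eq (hBU hy)
  refine ⟨K, hK1, ?_, hmem, heq, ?_⟩
  · refine LipschitzOnWith.of_dist_le_mul fun a ha b hb => ?_
    exact ((hψ.2.2 a ha b hb).1).trans (mul_le_mul_of_nonneg_right hLK dist_nonneg)
  · refine LipschitzOnWith.of_dist_le_mul fun a ha b hb => ?_
    have h3 := (hψ.2.2 _ (hmem a ha) _ (hmem b hb)).2
    rw [heq a ha, heq b hb] at h3
    exact h3.trans (mul_le_mul_of_nonneg_right hLK dist_nonneg)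

lemma ChF.comp {n : ℕ} {X : Type} [MetricSpace X] {U : Set X} {ψ : X → E n} {θ : E n → X}
    {K : ℝ≥0} (h : ChF U ψ θ K) : IsCompact (θ '' BB n) :=
  (isCompact_closedBall _ _).image_of_continuousOn h.lip'.continuousOn

/-- energies in the chart -/
lemma chart_en {n : ℕ} {X : Type} [MetricSpace X] {U : Set X} {ψ : X → E n} {θ : E n → X}
    {K : ℝ≥0} (hF : ChF U ψ θ K) (f : X → X) (hf : Continuous f)
    (hfU : ∀ y ∈ BB n, f (θ y) ∈ U) (c : ℕ) (hc : (K : ℝ) ^ 2 ≤ c) {r ε : ℝ} (hr : 0 < r)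
    (hE : XEn n (θ '' BB n) c r ε f) :
    EnAt (K * r) ((K : ℝ) ^ (n + 1) * ε) (fun y => ψ (f (θ y))) := by
  classical
  have hK1 := hF.one
  have hK0 : (0 : ℝ) < K := by linarith
  have h3B : closedBall (0 : E n) 3 ⊆ BB n := closedBall_subset_closedBall (by norm_num)
  have hinj : InjOn θ (BB n) := by
    intro a ha b hb hab
    rw [← hF.eq a ha, ← hF.eq b hb, hab]
  intro A hA3 hAs
  have hmain := hE (A.image θ) (by
      intro a ha
      obtain ⟨a0, ha0, rfl⟩ := Finset.mem_image.1 ha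
      exact mem_image_of_mem θ (h3B (hA3 a0 ha0))) (by
      intro a ha b hb hab
      obtain ⟨a0, ha0, rfl⟩ := Finset.mem_image.1 ha
      obtain ⟨b0, hb0, rfl⟩ := Finset.mem_image.1 hb
      have hne : a0 ≠ b0 := fun h => hab (by rw [h])
      have h1 := hAs a0 ha0 b0 hb0 hne
      have h2 := hF.lip.dist_le_mul _ (hF.mem a0 (h3B (hA3 a0 ha0))) _
        (hF.mem b0 (h3B (hA3 b0 hb0)))
      rw [hF.eq a0 (h3B (hA3 a0 ha0)), hF.eq b0 (h3B (hA3 b0 hb0))] at h2
      have h3 := h1.trans h2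
      exact le_of_mul_le_mul_left h3 hK0)
  rw [Finset.sum_image (fun a ha b hb hab =>
    hinj (h3B (hA3 a ha)) (h3B (hA3 b hb)) hab)] at hmain
  have hterm : ∀ a ∈ A, Metric.diam ((fun y => ψ (f (θ y))) ''
      (closedBall a (K * r) ∩ closedBall 0 3)) ^ n ≤
      (K : ℝ) ^ n * Metric.diam (f '' (closedBall (θ a) (c * r) ∩ (θ '' BB n))) ^ n := by
    intro a ha
    rw [← mul_pow]
    refine pow_le_pow_left₀ diam_nonneg ?_ n
    refine diam_le_of_forall_dist_le (mul_nonneg hK0.le diam_nonneg) ?_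
    rintro _ ⟨x, hx, rfl⟩ _ ⟨y, hy, rfl⟩
    have haB : a ∈ BB n := h3B (hA3 a ha)
    have hin : ∀ z ∈ closedBall a (K * r) ∩ closedBall (0 : E n) 3,
        θ z ∈ closedBall (θ a) (c * r) ∩ (θ '' BB n) := by
      intro z hz
      refine ⟨?_, mem_image_of_mem θ (h3B hz.2)⟩
      rw [mem_closedBall]
      have h1 := hF.lip'.dist_le_mul z (h3B hz.2) a haB
      have h2 : dist z a ≤ K * r := hz.1
      calc dist (θ z) (θ a) ≤ K * dist z a := h1
        _ ≤ K * (K * r) := by gcongr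
        _ = (K : ℝ) ^ 2 * r := by ring
        _ ≤ c * r := by gcongr
    have hbdd : Bornology.IsBounded (f '' (closedBall (θ a) (c * r) ∩ (θ '' BB n))) :=
      ((hF.comp.image hf).isBounded).subset (image_mono inter_subset_right)
    calc dist (ψ (f (θ x))) (ψ (f (θ y))) ≤ K * dist (f (θ x)) (f (θ y)) :=
          hF.lip.dist_le_mul _ (hfU x (h3B hx.2)) _ (hfU y (h3B hy.2))
      _ ≤ K * Metric.diam (f '' (closedBall (θ a) (c * r) ∩ (θ '' BB n))) := by
        gcongr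
        exact dist_le_diam_of_mem hbdd (mem_image_of_mem _ (hin x hx))
          (mem_image_of_mem _ (hin y hy))
  calc (K : ℝ) * r * ∑ a ∈ A, Metric.diam ((fun y => ψ (f (θ y))) ''
        (closedBall a (K * r) ∩ closedBall 0 3)) ^ n
      ≤ K * r * ∑ a ∈ A, (K : ℝ) ^ n * Metric.diam (f '' (closedBall (θ a) (c * r) ∩
          (θ '' BB n))) ^ n := by
        refine mul_le_mul_of_nonneg_left (Finset.sum_le_sum hterm) (by positivity)
    _ = (K : ℝ) ^ (n + 1) * (r * ∑ a ∈ A, Metric.diam (f '' (closedBall (θ a) (c * r) ∩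
          (θ '' BB n))) ^ n) := by rw [← Finset.mul_sum]; ring
    _ ≤ (K : ℝ) ^ (n + 1) * ε := by gcongr

/-- energies tending to zero along the sequence `s` of scales on compact subsets of `S` -/
def XSeq (n : ℕ) {X : Type} [MetricSpace X] (S : Set X) (s : ℕ → ℝ) (f : X → X) : Prop :=
  ∀ C ⊆ S, IsCompact C → ∀ c : ℕ, ∀ ε : ℝ, 0 < ε → ∀ᶠ j in atTop, XEn n C c (s j) ε f

theorem good_seq {n : ℕ} {X : Type} [MetricSpace X] {S : Set X} {s : ℕ → ℝ} (hs : ∀ j, 0 < s j)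
    {G : Type} [Group G] [TopologicalSpace G] [MulAction G X] [ContinuousSMul G X]
    {V : Set G} (hV : ∀ g ∈ V, XSeq n S s (fun x : X => g • x))
    (P : Type) [Group P] [TopologicalSpace P] (i : P →* G) (hiV : ∀ h, i h ∈ V) :
    Good n S (GdS n) P (fun (h : P) (x : X) => i h • x) := by
  intro U ψ L x0 hψ hUS hx0 hBU hact
  obtain ⟨K, hF⟩ := chf (x0 := x0) hψ hBU
  obtain ⟨c, hc⟩ := exists_nat_ge ((K : ℝ) ^ 2)
  have hK0 : (0 : ℝ) < K := by linarith [hF.one]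
  refine ⟨fun j => K * s j, fun j => mul_pos hK0 (hs j), fun h ε hε => ?_⟩
  have hCS : inv' U ψ x0 '' BB n ⊆ S := by
    rintro _ ⟨y, hy, rfl⟩
    exact hUS (hF.mem y hy)
  have h1 := hV (i h) (hiV h) _ hCS hF.comp c (ε / (K : ℝ) ^ (n + 1)) (by positivity)
  filter_upwards [h1] with j hj
  have h2 := chart_en hF (fun x : X => i h • x) (continuous_const_smul (i h))
    (fun y hy => (hact h _ (hF.mem y hy) (by rw [hF.eq y hy]; exact hy)).1) c hc (hs j) hj
  have h3 : (K : ℝ) ^ (n + 1) * (ε / (K : ℝ) ^ (n + 1)) = ε := by field_simp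
  rw [h3] at h2
  exact h2

/-- Hilbert-Smith for critical energies along a sequence of scales -/
theorem lie_seq {n : ℕ} (hn : 1 ≤ n) {X : Type} [MetricSpace X] {S : Set X} (hSo : IsOpen S)
    (hSR : S ⊆ Reg n X) (hd : Dense S) (hc : IsPreconnected S)
    {G : Type} [Group G] [TopologicalSpace G] [IsTopologicalGroup G] [LocallyCompactSpace G]
    [MulAction G X] [ContinuousSMul G X] [FaithfulSMul G X] {s : ℕ → ℝ} (hs : ∀ j, 0 < s j)
    (h : ∀ᶠ g in 𝓝 (1 : G), XSeq n S s (fun x : X => g • x)) : IsLie G :=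
  lie_main hn (cls_S hn) hSo hSR hd hc {g : G | XSeq n S s (fun x : X => g • x)} h
    (fun P _ _ _ _ _ _ i _ hi => good_seq hs (fun _ hg => hg) P i hi)

end Pool.Agent.Q155.HS
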